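import Pool.Agent.Lib.MP_a4e0fb_ag.H72Genus1

open Finset Function
open scoped Classical

namespace MPa4e0fb

lemma isEff_int : IsEff (AddMonoidHom.id ℤ) {d : ℤ | 0 < d} where
  pos := fun β hβ => hβ
  add := fun α hα β hβ => by
    have h1 : (0 : ℤ) < α := hα
    have h2 : (0 : ℤ) < β := hβ
    exact add_pos h1 h2
  fin := fun D => (Set.finite_Ioc 0 D).subset fun β hβ => ⟨hβ.1, hβ.2⟩

lemma push_int {k : ℕ} (hk : 0 < k) (f : ℤ → ℚ) (d : ℕ) :
    push k f (d : ℤ) = if k ∣ d then f ((d / k : ℕ) : ℤ) else 0 := by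
  unfold push
  split_ifs with h
  · obtain ⟨c, rfl⟩ := h
    rw [finsum_eq_single _ (c : ℤ)]
    · rw [if_pos (by simp), Nat.mul_div_cancel_left _ hk]
    · intro α hα
      rw [if_neg]
      intro h
      apply hα
      rw [nsmul_eq_mul] at h
      push_cast at h
      have hk' : (k : ℤ) ≠ 0 := by positivity
      exact mul_left_cancel₀ hk' h
  · apply finsum_eq_zero_of_forall_eq_zero
    intro α
    rw [if_neg]
    intro h'
    apply h
    rw [nsmul_eq_mul] at h'
    have : (k : ℤ) ∣ (d : ℤ) := ⟨α, h'.symm⟩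
    exact_mod_cast this

lemma mcs_int (w : ℕ → ℚ) {f : ℤ → ℚ} (hf : ∀ α, α ∉ {d : ℤ | 0 < d} → f α = 0) (d : ℕ) :
    mcs w f (d : ℤ) = ∑ a ∈ d.divisors, w (d / a) * f (a : ℤ) := by
  rw [mcs_eq isEff_int w hf (D := d) (by simp)]
  have h1 : ∑ k ∈ Icc 1 d, w k * push k f (d : ℤ) =
      ∑ k ∈ d.divisors, w k * f ((d / k : ℕ) : ℤ) := by
    rw [Nat.divisors, Finset.sum_filter]
    have : Ico 1 (d + 1) = Icc 1 d := by
      ext x; simp only [mem_Ico, mem_Icc]; omega
    rw [this]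
    apply Finset.sum_congr rfl
    intro k hk
    rw [mem_Icc] at hk
    rw [push_int hk.1]
    split_ifs <;> simp
  rw [h1, ← Nat.sum_div_divisors d (fun k => w k * f ((d / k : ℕ) : ℤ))]
  apply Finset.sum_congr rfl
  intro a ha
  have hd := Nat.dvd_of_mem_divisors ha
  have hd0 : d ≠ 0 := by
    intro h; subst h; simp at ha
  rw [Nat.div_div_self hd hd0]

lemma push2_int {k l : ℕ} (hk : 0 < k) (hl : 0 < l) {p : ℤ → ℤ → ℚ}
    (hp : ∀ a b, a ∉ {d : ℤ | 0 < d} ∨ b ∉ {d : ℤ | 0 < d} → p a b = 0) (d : ℕ) :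
    push2 k l p (d : ℤ) = ∑ a ∈ Icc 1 d, ∑ c ∈ Icc 1 d,
      if k * a + l * c = d then p (a : ℤ) (c : ℤ) else 0 := by
  unfold push2
  rw [← Finset.sum_product']
  let g : ℕ × ℕ → ℤ × ℤ := fun x => ((x.1 : ℤ), (x.2 : ℤ))
  have hg1 : ∀ x, (g x).1 = (x.1 : ℤ) := fun _ => rfl
  have hg2 : ∀ x, (g x).2 = (x.2 : ℤ) := fun _ => rfl
  have hinj : Injective g := by
    intro x y h
    have h1 : (g x).1 = (g y).1 := by rw [h]
    have h2 : (g x).2 = (g y).2 := by rw [h]
    rw [hg1, hg1] at h1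
    rw [hg2, hg2] at h2
    exact Prod.ext (by exact_mod_cast h1) (by exact_mod_cast h2)
  rw [finsum_eq_sum_of_support_subset (s := (Icc 1 d ×ˢ Icc 1 d).image g)]
  · rw [Finset.sum_image hinj.injOn]
    apply Finset.sum_congr rfl
    rintro ⟨a, c⟩ _
    rw [hg1, hg2]
    have : (k • (a : ℤ) + l • (c : ℤ) = (d : ℤ)) ↔ (k * a + l * c = d) := by
      rw [nsmul_eq_mul, nsmul_eq_mul]
      constructor
      · intro h; exact_mod_cast h
      · intro h; exact_mod_cast h
    simp only [this]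
  · rintro ⟨α, γ⟩ hx
    rw [mem_support] at hx
    have h1 : k • α + l • γ = (d : ℤ) := by
      by_contra h'; exact hx (if_neg h')
    have h2 : p α γ ≠ 0 := by
      intro h'; apply hx; simp only [h1, if_true]; exact h'
    have hα : (0 : ℤ) < α := by
      by_contra h'; exact h2 (hp _ _ (Or.inl h'))
    have hγ : (0 : ℤ) < γ := by
      by_contra h'; exact h2 (hp _ _ (Or.inr h'))
    have h3 := deg_le_of_two isEff_int hk hl (α := α) (γ := γ) (β := (d : ℤ)) hα hγ h1
    simp only [AddMonoidHom.id_apply] at h3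
    rw [Finset.mem_coe, Finset.mem_image]
    refine ⟨(α.toNat, γ.toNat), ?_, ?_⟩
    · rw [mem_product, mem_Icc, mem_Icc]
      simp only
      omega
    · apply Prod.ext
      · rw [hg1]; simp only; omega
      · rw [hg2]; simp only; omega

lemma divisor_sum_as_double (f : ℕ → ℚ) {d i : ℕ} (hi : i ≤ d) :
    ∑ a ∈ i.divisors, f a = ∑ k ∈ Icc 1 d, ∑ a ∈ Icc 1 d, if k * a = i then f a else 0 := by
  rw [Finset.sum_comm]
  rcases Nat.eq_zero_or_pos i with h0 | h0
  · subst h0
    rw [Nat.divisors_zero, Finset.sum_empty]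
    symm
    apply Finset.sum_eq_zero
    intro a ha
    apply Finset.sum_eq_zero
    intro k hk
    rw [mem_Icc] at ha hk
    rw [if_neg]
    have := Nat.mul_pos (show 0 < k by omega) (show 0 < a by omega)
    omega
  · have hsub : i.divisors ⊆ Icc 1 d := by
      intro a ha
      rw [mem_Icc]
      exact ⟨Nat.pos_of_mem_divisors ha, (Nat.divisor_le ha).trans hi⟩
    rw [← Finset.sum_subset hsub]
    · apply Finset.sum_congr rfl
      intro a ha
      obtain ⟨c, hc⟩ := Nat.dvd_of_mem_divisors ha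
      have ha0 := Nat.pos_of_mem_divisors ha
      have hc0 : 0 < c := Nat.pos_of_ne_zero (by rintro rfl; simp at hc; omega)
      rw [Finset.sum_eq_single c]
      · rw [if_pos (by rw [hc]; ring)]
      · intro k _ hkc
        rw [if_neg]
        intro h
        apply hkc
        have : k * a = c * a := by rw [h, hc]; ring
        exact Nat.eq_of_mul_eq_mul_right ha0 this
      · intro hc'
        exfalso
        apply hc'
        rw [mem_Icc]
        refine ⟨hc0, ?_⟩
        have : c ≤ i := by rw [hc]; exact Nat.le_mul_of_pos_left c ha0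
        omega
    · intro a _ ha'
      apply Finset.sum_eq_zero
      intro k _
      rw [if_neg]
      intro h
      apply ha'
      rw [Nat.mem_divisors]
      exact ⟨Dvd.intro_left k h, h0.ne'⟩

lemma pairSum_int (r : ℚ) {f : ℤ → ℚ} (hf : ∀ α, α ∉ {d : ℤ | 0 < d} → f α = 0) (d : ℕ) :
    pairSum (fun a b => r * f a * f b) (d : ℤ) =
      r * ∑ x ∈ antidiagonal d, (∑ a ∈ x.1.divisors, f (a : ℤ)) * (∑ c ∈ x.2.divisors, f (c : ℤ)) := by
  have hp : ∀ a b, a ∉ {d : ℤ | 0 < d} ∨ b ∉ {d : ℤ | 0 < d} → r * f a * f b = 0 := by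
    intro a b hab
    rcases hab with h | h
    · rw [hf a h]; ring
    · rw [hf b h]; ring
  rw [pairSum_eq isEff_int hp (D := d) (by simp)]
  have h1 : ∀ k ∈ Icc 1 d, ∀ l ∈ Icc 1 d, push2 k l (fun a b => r * f a * f b) (d : ℤ) =
      ∑ a ∈ Icc 1 d, ∑ c ∈ Icc 1 d, if k * a + l * c = d then r * f (a : ℤ) * f (c : ℤ) else 0 := by
    intro k hk l hl
    rw [mem_Icc] at hk hl
    exact push2_int hk.1 hl.1 hp d
  have h2 : ∀ x ∈ antidiagonal d, (∑ a ∈ x.1.divisors, f (a : ℤ)) * (∑ c ∈ x.2.divisors, f (c : ℤ)) =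
      ∑ k ∈ Icc 1 d, ∑ l ∈ Icc 1 d, ∑ a ∈ Icc 1 d, ∑ c ∈ Icc 1 d,
        if k * a = x.1 ∧ l * c = x.2 then f (a : ℤ) * f (c : ℤ) else 0 := by
    intro x hx
    rw [HasAntidiagonal.mem_antidiagonal] at hx
    rw [divisor_sum_as_double (fun a => f (a : ℤ)) (show x.1 ≤ d by omega),
      divisor_sum_as_double (fun a => f (a : ℤ)) (show x.2 ≤ d by omega)]
    rw [Finset.sum_mul]
    apply Finset.sum_congr rfl
    intro k _
    rw [Finset.mul_sum]
    apply Finset.sum_congr rfl
    intro l _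
    rw [Finset.sum_mul]
    apply Finset.sum_congr rfl
    intro a _
    rw [Finset.mul_sum]
    apply Finset.sum_congr rfl
    intro c _
    by_cases e1 : k * a = x.1 <;> by_cases e2 : l * c = x.2 <;> simp [e1, e2]
  rw [Finset.sum_congr rfl h2]
  have h3 : ∑ x ∈ antidiagonal d, ∑ k ∈ Icc 1 d, ∑ l ∈ Icc 1 d, ∑ a ∈ Icc 1 d, ∑ c ∈ Icc 1 d,
        (if k * a = x.1 ∧ l * c = x.2 then f (a : ℤ) * f (c : ℤ) else 0) =
      ∑ k ∈ Icc 1 d, ∑ l ∈ Icc 1 d, ∑ a ∈ Icc 1 d, ∑ c ∈ Icc 1 d,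
        if k * a + l * c = d then f (a : ℤ) * f (c : ℤ) else 0 := by
    rw [Finset.sum_comm]
    apply Finset.sum_congr rfl
    intro k _
    rw [Finset.sum_comm]
    apply Finset.sum_congr rfl
    intro l _
    rw [Finset.sum_comm]
    apply Finset.sum_congr rfl
    intro a _
    rw [Finset.sum_comm]
    apply Finset.sum_congr rfl
    intro c _
    by_cases e : k * a + l * c = d
    · rw [if_pos e, Finset.sum_eq_single (k * a, l * c)]
      · simp
      · rintro ⟨i, j⟩ _ hne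
        rw [if_neg]
        rintro ⟨h1, h2⟩
        exact hne (Prod.ext h1.symm h2.symm)
      · intro hne
        exfalso
        apply hne
        rw [HasAntidiagonal.mem_antidiagonal]
        exact e
    · rw [if_neg e]
      apply Finset.sum_eq_zero
      rintro ⟨i, j⟩ hx
      rw [HasAntidiagonal.mem_antidiagonal] at hx
      rw [if_neg]
      rintro ⟨h1, h2⟩
      apply e
      rw [h1, h2]
      exact hx
  rw [h3, Finset.mul_sum]
  apply Finset.sum_congr rfl
  intro k hk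
  rw [Finset.mul_sum]
  apply Finset.sum_congr rfl
  intro l hl
  rw [h1 k hk l hl, Finset.mul_sum]
  apply Finset.sum_congr rfl
  intro a _
  rw [Finset.mul_sum]
  apply Finset.sum_congr rfl
  intro c _
  split_ifs <;> ring

end MPa4e0fb
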