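import Mathlib

open Finset

namespace MPa4e0fb

/-- product over the residues coprime to `p` in `[p t + 1, p t + p - 1]` -/
def blk (p t : ℕ) : ℕ := ∏ r ∈ range (p - 1), (p * t + r + 1)

lemma factorial_blk (p : ℕ) (hp : 0 < p) (m : ℕ) :
    (p * m).factorial = p ^ m * m.factorial * ∏ t ∈ range m, blk p t := by
  induction m with
  | zero => simp
  | succ m ih =>
    have h1 : p * (m + 1) = p * m + p := by ring
    have h2 : (p * m + p).factorial = (p * m).factorial * ∏ r ∈ range p, (p * m + r + 1) := by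
      rw [← Nat.factorial_mul_ascFactorial, Nat.ascFactorial_eq_prod_range]
      congr 1
      apply Finset.prod_congr rfl
      intro r _
      ring
    have h3 : ∏ r ∈ range p, (p * m + r + 1) = blk p m * (p * (m + 1)) := by
      obtain ⟨q, rfl⟩ : ∃ q, p = q + 1 := ⟨p - 1, by omega⟩
      rw [Finset.prod_range_succ]
      unfold blk
      simp only [Nat.add_sub_cancel]
      congr 1
    rw [h1, h2, h3, ih, Finset.prod_range_succ, Nat.factorial_succ]
    ring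

lemma blk_pos (p t : ℕ) : 0 < blk p t := Finset.prod_pos fun _ _ => by omega

lemma central_blk (p : ℕ) (hp : 0 < p) (k : ℕ) :
    (p * k).centralBinom * ∏ t ∈ range k, blk p t =
      k.centralBinom * ∏ t ∈ range k, blk p (k + t) := by
  have h1 := factorial_blk p hp k
  have h2 := factorial_blk p hp (2 * k)
  have h3 : (p * k).centralBinom * (p * k).factorial * (p * k).factorial = (2 * (p * k)).factorial := by
    rw [Nat.centralBinom_eq_two_mul_choose]
    have := Nat.choose_mul_factorial_mul_factorial (n := 2 * (p * k)) (k := p * k) (by omega)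
    rw [show 2 * (p * k) - p * k = p * k by omega] at this
    exact this
  have h4 : k.centralBinom * k.factorial * k.factorial = (2 * k).factorial := by
    rw [Nat.centralBinom_eq_two_mul_choose]
    have := Nat.choose_mul_factorial_mul_factorial (n := 2 * k) (k := k) (by omega)
    rw [show 2 * k - k = k by omega] at this
    exact this
  have h5 : ∏ t ∈ range (2 * k), blk p t = (∏ t ∈ range k, blk p t) * ∏ t ∈ range k, blk p (k + t) := by
    rw [two_mul, Finset.prod_range_add]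
  rw [show 2 * (p * k) = p * (2 * k) by ring, h2, h1, ← h4, h5] at h3
  have hA : 0 < p ^ k := by positivity
  have hB : 0 < k.factorial := Nat.factorial_pos k
  have hC : 0 < ∏ t ∈ range k, blk p t := Finset.prod_pos fun t _ => blk_pos p t
  have h6 : (p ^ k * p ^ k * k.factorial * k.factorial * ∏ t ∈ range k, blk p t) *
      ((p * k).centralBinom * ∏ t ∈ range k, blk p t) =
      (p ^ k * p ^ k * k.factorial * k.factorial * ∏ t ∈ range k, blk p t) *
      (k.centralBinom * ∏ t ∈ range k, blk p (k + t)) := by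
    rw [show p ^ (2 * k) = p ^ k * p ^ k by rw [two_mul, pow_add]] at h3
    nlinarith [h3]
  exact Nat.eq_of_mul_eq_mul_left (by positivity) h6

/-- integer versions of the two products -/
def PP (p k : ℕ) : ℤ := ∏ t ∈ range k, ∏ r ∈ range (p - 1), ((p * t + r + 1 : ℕ) : ℤ)
def QQ (p k : ℕ) : ℤ := ∏ t ∈ range k, ∏ r ∈ range (p - 1), (p * k + (p * t + r + 1 : ℕ) : ℤ)

lemma central_PQ (p : ℕ) (hp : 0 < p) (k : ℕ) :
    ((p * k).centralBinom : ℤ) * PP p k = k.centralBinom * QQ p k := by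
  have h := central_blk p hp k
  have h' : (((p * k).centralBinom * ∏ t ∈ range k, blk p t : ℕ) : ℤ) =
      ((k.centralBinom * ∏ t ∈ range k, blk p (k + t) : ℕ) : ℤ) := by rw [h]
  push_cast at h'
  have e1 : (∏ t ∈ range k, (blk p t : ℤ)) = PP p k := by
    unfold PP blk
    push_cast
    rfl
  have e2 : (∏ t ∈ range k, (blk p (k + t) : ℤ)) = QQ p k := by
    unfold QQ blk
    push_cast
    apply Finset.prod_congr rfl
    intro t _
    apply Finset.prod_congr rfl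
    intro r _
    ring
  rw [e1, e2] at h'
  exact h'

lemma double_reflect (p k : ℕ) (F : ℤ → ℤ) :
    ∏ t ∈ range k, ∏ r ∈ range (p - 1), F ((p * t + r + 1 : ℕ) : ℤ) =
    ∏ t ∈ range k, ∏ r ∈ range (p - 1), F (p * k - (p * t + r + 1 : ℕ)) := by
  rw [← Finset.prod_range_reflect]
  apply Finset.prod_congr rfl
  intro t ht
  rw [mem_range] at ht
  rw [← Finset.prod_range_reflect]
  apply Finset.prod_congr rfl
  intro r hr
  rw [mem_range] at hr
  congr 1
  have h1 : ((k - 1 - t : ℕ) : ℤ) = k - 1 - t := by omega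
  have h2 : ((p - 1 - 1 - r : ℕ) : ℤ) = p - 1 - 1 - r := by omega
  push_cast
  rw [h1, h2]
  ring

lemma PP_sq (p k : ℕ) : PP p k ^ 2 = ∏ t ∈ range k, ∏ r ∈ range (p - 1),
    (((p * t + r + 1 : ℕ) : ℤ) * (p * k - (p * t + r + 1 : ℕ))) := by
  have h := double_reflect p k (fun x => x)
  rw [sq]
  nth_rewrite 2 [PP]
  rw [h, PP, ← Finset.prod_mul_distrib]
  apply Finset.prod_congr rfl
  intro t _
  rw [← Finset.prod_mul_distrib]

lemma QQ_sq (p k : ℕ) : QQ p k ^ 2 = ∏ t ∈ range k, ∏ r ∈ range (p - 1),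
    (((p * t + r + 1 : ℕ) : ℤ) * (p * k - (p * t + r + 1 : ℕ)) + 2 * (p * k) ^ 2) := by
  have h := double_reflect p k (fun x => p * k + x)
  rw [sq]
  nth_rewrite 2 [QQ]
  rw [h, QQ, ← Finset.prod_mul_distrib]
  apply Finset.prod_congr rfl
  intro t _
  rw [← Finset.prod_mul_distrib]
  apply Finset.prod_congr rfl
  intro r _
  ring

/-- congruence of products after a shift -/
lemma prod_shift_dvd {ι : Type*} (s : Finset ι) (A B : ι → ℤ) (x : ℤ)
    (h : ∀ i ∈ s, x ∣ B i - A i) : x ∣ ∏ i ∈ s, B i - ∏ i ∈ s, A i := by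
  have : ∀ i ∈ s, A i ≡ B i [ZMOD x] := fun i hi => (Int.modEq_iff_dvd).2 (h i hi)
  exact (Int.modEq_iff_dvd).1 (Int.ModEq.prod this)

lemma QP_mod (p k : ℕ) : (p : ℤ) * k ∣ QQ p k - PP p k := by
  unfold QQ PP
  apply prod_shift_dvd
  intro t _
  apply prod_shift_dvd
  intro r _
  exact ⟨1, by ring⟩

lemma QP_sq_mod (p k : ℕ) : 2 * ((p : ℤ) * k) ^ 2 ∣ QQ p k ^ 2 - PP p k ^ 2 := by
  rw [QQ_sq, PP_sq]
  apply prod_shift_dvd
  intro t _
  apply prod_shift_dvd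
  intro r _
  exact ⟨1, by ring⟩

lemma PP_not_dvd {p : ℕ} (hp : p.Prime) (k : ℕ) : ¬ (p : ℤ) ∣ PP p k := by
  unfold PP
  rw [Prime.dvd_finsetProd_iff (Nat.prime_iff_prime_int.mp hp)]
  push Not
  intro t _
  rw [Prime.dvd_finsetProd_iff (Nat.prime_iff_prime_int.mp hp)]
  push Not
  intro r hr hdvd
  rw [mem_range] at hr
  have h1 : p ∣ p * t + r + 1 := by exact_mod_cast hdvd
  have h2 : p ∣ r + 1 := by
    rw [add_assoc] at h1
    exact (Nat.dvd_add_right (Dvd.intro t rfl)).mp h1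
  have := Nat.le_of_dvd (by omega) h2
  omega

lemma QP_add_not_dvd {p : ℕ} (hp : p.Prime) (hp2 : p ≠ 2) (k : ℕ) :
    ¬ (p : ℤ) ∣ QQ p k + PP p k := by
  intro h
  have h1 : (p : ℤ) ∣ QQ p k - PP p k := (Dvd.intro _ rfl).trans (QP_mod p k)
  have h2 : (p : ℤ) ∣ 2 * PP p k := by
    have := dvd_sub h h1
    have e : QQ p k + PP p k - (QQ p k - PP p k) = 2 * PP p k := by ring
    rwa [e] at this
  rcases (Nat.prime_iff_prime_int.mp hp).dvd_or_dvd h2 with h3 | h3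
  · have h4 : p ∣ 2 := by exact_mod_cast h3
    exact hp2 ((Nat.prime_dvd_prime_iff_eq hp Nat.prime_two).mp h4)
  · exact PP_not_dvd hp k h3

/-- `C(2pk, pk) ≡ C(2k, k)` modulo `p^{2r}` if `p^r ∣ pk`, `p` odd. -/
lemma central_odd {p : ℕ} (hp : p.Prime) (hp2 : p ≠ 2) (k r : ℕ) (hr : p ^ r ∣ p * k) :
    ((p : ℤ) ^ (2 * r)) ∣ ((p * k).centralBinom : ℤ) - k.centralBinom := by
  have hpi := Nat.prime_iff_prime_int.mp hp
  have h1 : (p : ℤ) ^ (2 * r) ∣ (QQ p k - PP p k) * (QQ p k + PP p k) := by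
    have h2 : (p : ℤ) ^ (2 * r) ∣ 2 * ((p : ℤ) * k) ^ 2 := by
      have h3 : ((p : ℤ) ^ r) ∣ (p : ℤ) * k := by exact_mod_cast hr
      have h4 := pow_dvd_pow_of_dvd h3 2
      rw [← pow_mul, mul_comm r 2] at h4
      exact h4.mul_left 2
    have h5 := h2.trans (QP_sq_mod p k)
    have e : (QQ p k - PP p k) * (QQ p k + PP p k) = QQ p k ^ 2 - PP p k ^ 2 := by ring
    rw [e]
    exact h5
  have h2 : (p : ℤ) ^ (2 * r) ∣ QQ p k - PP p k := by
    refine IsCoprime.dvd_of_dvd_mul_right ?_ h1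
    apply IsCoprime.pow_left
    exact (Prime.coprime_iff_not_dvd hpi).mpr (QP_add_not_dvd hp hp2 k)
  have h3 : (((p * k).centralBinom : ℤ) - k.centralBinom) * PP p k =
      k.centralBinom * (QQ p k - PP p k) := by
    rw [sub_mul, central_PQ p hp.pos k]; ring
  have h4 : (p : ℤ) ^ (2 * r) ∣ (((p * k).centralBinom : ℤ) - k.centralBinom) * PP p k := by
    rw [h3]; exact h2.mul_left _
  refine IsCoprime.dvd_of_dvd_mul_right ?_ h4
  apply IsCoprime.pow_left
  exact (Prime.coprime_iff_not_dvd hpi).mpr (PP_not_dvd hp k)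

/-! ### the prime 3 -/

lemma prod_shift_three {ι : Type*} (s : Finset ι) (A : ι → ℤ) (x : ℤ) (hx : 3 ∣ x)
    (hA : ∀ i ∈ s, 3 ∣ A i + 1) :
    3 ∣ ∏ i ∈ s, (A i + x) - (-1) ^ s.card ∧
    3 * x ∣ ∏ i ∈ s, (A i + x) - ∏ i ∈ s, A i + s.card * (-1) ^ s.card * x := by
  classical
  induction s using Finset.induction_on with
  | empty => simp
  | insert i s hi ih =>
    obtain ⟨ih1, ih2⟩ := ih (fun j hj => hA j (Finset.mem_insert_of_mem hj))
    rw [Finset.prod_insert hi, Finset.prod_insert hi, Finset.card_insert_of_notMem hi]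
    obtain ⟨a, ha⟩ := hA i (Finset.mem_insert_self i s)
    obtain ⟨y, hy⟩ := hx
    obtain ⟨u, hu⟩ := ih1
    obtain ⟨v, hv⟩ := ih2
    have hA' : A i = 3 * a - 1 := by linarith
    have hu' : ∏ i ∈ s, (A i + x) = 3 * u + (-1) ^ s.card := by linarith
    have hv' : ∏ i ∈ s, A i = 3 * u + (-1) ^ s.card + s.card * (-1) ^ s.card * x - 3 * x * v := by
      rw [← hu']; linarith
    rw [hv', hu', hA', pow_succ]
    constructor
    · refine ⟨a * (3 * u + (-1) ^ s.card) - u + y * (3 * u + (-1) ^ s.card), ?_⟩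
      rw [hy]; ring
    · refine ⟨u - a * s.card * (-1) ^ s.card + (3 * a - 1) * v, ?_⟩
      push_cast
      ring

lemma three_dvd_sq_sub_one {x : ℤ} (h : ¬ (3 : ℤ) ∣ x) : (3 : ℤ) ∣ x ^ 2 - 1 := by
  have h1 : x % 3 = 1 ∨ x % 3 = 2 := by omega
  have h2 : x ^ 2 - 1 = (x - 1) * (x + 1) := by ring
  rw [h2]
  rcases h1 with h1 | h1
  · exact (Dvd.dvd.mul_right (by omega) _)
  · exact (Dvd.dvd.mul_left (by omega) _)

lemma central_three (k e : ℕ) (w : ℕ) (hk : k = 3 ^ e * w) (hw : ¬ 3 ∣ w) :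
    (3 : ℤ) ^ (2 * e + 3) ∣ ((3 * k).centralBinom : ℤ) - k.centralBinom
      - 9 * k ^ 3 * k.centralBinom := by
  have hp : Nat.Prime 3 := Nat.prime_three
  have hpi : Prime (3 : ℤ) := Int.prime_three
  set P := PP 3 k with hP
  set Q := QQ 3 k with hQ
  set x : ℤ := 2 * (3 * k) ^ 2 with hx
  have hPnd : ¬ (3 : ℤ) ∣ P := by exact_mod_cast PP_not_dvd hp k
  have hQPnd : ¬ (3 : ℤ) ∣ Q + P := by exact_mod_cast QP_add_not_dvd hp (by norm_num) k
  -- step 1: `Q² - P² ≡ - 2k x mod 3x`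
  have h1 : 3 * x ∣ Q ^ 2 - P ^ 2 + 2 * k * x := by
    have h := (prod_shift_three (range k ×ˢ range 2)
      (fun i => ((3 * i.1 + i.2 + 1 : ℕ) : ℤ) * (3 * k - (3 * i.1 + i.2 + 1 : ℕ))) x
      ⟨6 * k ^ 2, by rw [hx]; ring⟩ ?_).2
    · rw [Finset.card_product, card_range, card_range] at h
      rw [Finset.prod_product, Finset.prod_product] at h
      have e1 : Q ^ 2 = ∏ t ∈ range k, ∏ r ∈ range 2,
          (((3 * t + r + 1 : ℕ) : ℤ) * (3 * k - (3 * t + r + 1 : ℕ)) + x) := by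
        rw [hQ, QQ_sq]; norm_num [hx]
      have e2 : P ^ 2 = ∏ t ∈ range k, ∏ r ∈ range 2,
          (((3 * t + r + 1 : ℕ) : ℤ) * (3 * k - (3 * t + r + 1 : ℕ))) := by
        rw [hP, PP_sq]; norm_num
      rw [e1, e2]
      have e3 : ((-1 : ℤ)) ^ (k * 2) = 1 := by rw [mul_comm, pow_mul]; norm_num
      rw [e3] at h
      convert h using 2
      push_cast
      ring
    · rintro ⟨t, r⟩ hi
      simp only [mem_product, mem_range] at hi
      have hr : r = 0 ∨ r = 1 := by omega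
      simp only
      rcases hr with rfl | rfl
      · refine ⟨(3 * t + 1) * k - (3 * t ^ 2 + 2 * t), ?_⟩
        push_cast; ring
      · refine ⟨(3 * t + 2) * k - (3 * t ^ 2 + 4 * t + 1), ?_⟩
        push_cast; ring
  obtain ⟨c, hc⟩ := h1
  -- step 2: powers of three
  have hxe : x = 3 ^ (2 * e + 2) * (2 * (w : ℤ) ^ 2) := by
    rw [hx, hk]; push_cast; ring
  have h2 : (Q - P) * (Q + P) = 3 ^ (2 * e + 2) * (2 * (w : ℤ) ^ 2 * (3 * c - 2 * k)) := by
    have : (Q - P) * (Q + P) = x * (3 * c - 2 * k) := by linarith [hc]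
    rw [this, hxe]; ring
  have h3 : (3 : ℤ) ^ (2 * e + 2) ∣ Q - P := by
    have hcop : IsCoprime ((3 : ℤ) ^ (2 * e + 2)) (Q + P) := by
      apply IsCoprime.pow_left
      exact (Prime.coprime_iff_not_dvd hpi).mpr hQPnd
    exact hcop.dvd_of_dvd_mul_right ⟨_, h2⟩
  obtain ⟨u, hu⟩ := h3
  have h4 : u * (Q + P) = 2 * (w : ℤ) ^ 2 * (3 * c - 2 * k) := by
    rw [hu] at h2
    have h33 : (3 : ℤ) ^ (2 * e + 2) ≠ 0 := by positivity
    apply mul_left_cancel₀ h33
    linarith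
  have h5 : (((3 * k).centralBinom : ℤ) - k.centralBinom) * P =
      k.centralBinom * (Q - P) := by
    rw [sub_mul, hP, central_PQ 3 hp.pos k]; ring
  have h6 : (3 : ℤ) ^ (2 * e + 2) ∣ ((3 * k).centralBinom : ℤ) - k.centralBinom := by
    have hcop : IsCoprime ((3 : ℤ) ^ (2 * e + 2)) P := by
      apply IsCoprime.pow_left
      exact (Prime.coprime_iff_not_dvd hpi).mpr hPnd
    exact hcop.dvd_of_dvd_mul_right ⟨k.centralBinom * u, by rw [h5, hu]; ring⟩
  obtain ⟨y, hy⟩ := h6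
  have h7 : y * P = k.centralBinom * u := by
    rw [hy, hu] at h5
    have h33 : (3 : ℤ) ^ (2 * e + 2) ≠ 0 := by positivity
    apply mul_left_cancel₀ h33
    linarith
  -- step 3: reduce modulo 3
  obtain ⟨d1, hd1⟩ := three_dvd_sq_sub_one hPnd
  have hw' : ¬ (3 : ℤ) ∣ w := by exact_mod_cast hw
  obtain ⟨d2, hd2⟩ := three_dvd_sq_sub_one hw'
  obtain ⟨d3, hd3⟩ : (3 : ℤ) ∣ Q - P := by
    rw [hu]
    exact Dvd.dvd.mul_right (dvd_pow_self 3 (by omega)) _
  have h8 : (3 : ℤ) ∣ y - (w : ℤ) ^ 2 * k * k.centralBinom := by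
    have e1 : y * P * (Q + P) = k.centralBinom * (2 * (w : ℤ) ^ 2 * (3 * c - 2 * k)) := by
      rw [h7, mul_assoc, h4]
    have e2 : Q = P + 3 * d3 := by linarith
    have e3 : P ^ 2 = 1 + 3 * d1 := by linarith
    have e4 : y * P * (Q + P) = 2 * y * (1 + 3 * d1) + 3 * (y * P * d3) := by
      rw [← e3, e2]; ring
    have e5 : 2 * (y - (w : ℤ) ^ 2 * k * k.centralBinom) =
        3 * (k.centralBinom * (2 * (w : ℤ) ^ 2 * c) - 2 * (w : ℤ) ^ 2 * k * k.centralBinom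
          - 2 * y * d1 - y * P * d3) := by
      have : 2 * y = k.centralBinom * (2 * (w : ℤ) ^ 2 * (3 * c - 2 * k)) - 6 * y * d1
        - 3 * (y * P * d3) := by linarith
      linarith
    have e6 : (3 : ℤ) ∣ 2 * (y - (w : ℤ) ^ 2 * k * k.centralBinom) := ⟨_, e5⟩
    exact (Int.Prime.dvd_mul' Nat.prime_three e6).resolve_left (by norm_num)
  obtain ⟨z, hz⟩ := h8
  refine ⟨z, ?_⟩
  have h9 : (9 : ℤ) * k ^ 3 = 3 ^ (2 * e + 2) * (w ^ 2 * k) := by
    have : (k : ℤ) = 3 ^ e * w := by rw [hk]; push_cast; ring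
    rw [this]
    ring
  rw [h9, hy]
  have hy' : y = (w : ℤ) ^ 2 * k * k.centralBinom + 3 * z := by linarith
  rw [hy']
  ring

/-! ### the prime 2 -/

lemma PP_two (k : ℕ) : PP 2 k = ∏ t ∈ range k, (2 * t + 1 : ℤ) := by
  unfold PP
  apply Finset.prod_congr rfl
  intro t _
  simp

lemma QQ_two (k : ℕ) : QQ 2 k = ∏ t ∈ range k, (2 * k + (2 * t + 1) : ℤ) := by
  unfold QQ
  apply Finset.prod_congr rfl
  intro t _
  simp

lemma QP_two_even (s : ℕ) : (8 * (2 * s : ℤ) ^ 2) ∣ QQ 2 (2 * s) - PP 2 (2 * s) := by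
  have h1 : PP 2 (2 * s) = ∏ t ∈ range s, ((2 * t + 1 : ℤ) * (2 * (2 * s) - (2 * t + 1))) := by
    rw [PP_two, two_mul s, Finset.prod_range_add, Finset.prod_mul_distrib]
    congr 1
    rw [← Finset.prod_range_reflect]
    apply Finset.prod_congr rfl
    intro t ht
    rw [mem_range] at ht
    have : ((s + (s - 1 - t) : ℕ) : ℤ) = 2 * s - 1 - t := by omega
    rw [this]; ring
  have h2 : QQ 2 (2 * s) = ∏ t ∈ range s,
      ((2 * t + 1 : ℤ) * (2 * (2 * s) - (2 * t + 1)) + 8 * (2 * s) ^ 2) := by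
    rw [QQ_two]
    have : ∏ t ∈ range (2 * s), (2 * ((2 * s : ℕ) : ℤ) + (2 * t + 1)) =
        (∏ t ∈ range s, (2 * ((2 * s : ℕ) : ℤ) + (2 * t + 1))) *
        ∏ t ∈ range s, (2 * ((2 * s : ℕ) : ℤ) + (2 * ((s + t : ℕ) : ℤ) + 1)) := by
      rw [two_mul s, Finset.prod_range_add]
    rw [this, ← Finset.prod_range_reflect (fun t => (2 * ((2 * s : ℕ) : ℤ) + (2 * ((s + t : ℕ) : ℤ) + 1))),
      ← Finset.prod_mul_distrib]
    apply Finset.prod_congr rfl
    intro t ht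
    rw [mem_range] at ht
    have : ((s + (s - 1 - t) : ℕ) : ℤ) = 2 * s - 1 - t := by omega
    rw [this]
    push_cast
    ring
  rw [h1, h2]
  apply prod_shift_dvd
  intro t _
  exact ⟨1, by ring⟩

lemma QP_two_odd (s : ℕ) : (4 : ℤ) ∣ QQ 2 (2 * s + 1) + PP 2 (2 * s + 1) := by
  have key : ∀ f : ℕ → ℤ, ∏ t ∈ range (2 * s + 1), f t =
      (∏ t ∈ range s, (f t * f (2 * s - t))) * f s := by
    intro f
    rw [show 2 * s + 1 = s + (s + 1) by ring, Finset.prod_range_add, Finset.prod_range_succ',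
      Finset.prod_mul_distrib, ← Finset.prod_range_reflect (fun t => f (s + (t + 1))), add_zero, mul_assoc]
    congr 2
    apply Finset.prod_congr rfl
    intro t ht
    rw [mem_range] at ht
    congr 1
    omega
  have h1 : PP 2 (2 * s + 1) = (∏ t ∈ range s, ((2 * t + 1 : ℤ) * (2 * (2 * s + 1) - (2 * t + 1))))
      * (2 * s + 1) := by
    rw [PP_two, key (fun t => (2 * (t : ℤ) + 1))]
    congr 1
    apply Finset.prod_congr rfl
    intro t ht
    rw [mem_range] at ht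
    have : ((2 * s - t : ℕ) : ℤ) = 2 * s - t := by omega
    rw [this]; ring
  have h2 : QQ 2 (2 * s + 1) = (∏ t ∈ range s, ((2 * t + 1 : ℤ) * (2 * (2 * s + 1) - (2 * t + 1))
      + 8 * (2 * s + 1) ^ 2)) * (3 * (2 * s + 1)) := by
    rw [QQ_two, key (fun t => (2 * ((2 * s + 1 : ℕ) : ℤ) + (2 * (t : ℤ) + 1)))]
    congr 1
    · apply Finset.prod_congr rfl
      intro t ht
      rw [mem_range] at ht
      have : ((2 * s - t : ℕ) : ℤ) = 2 * s - t := by omega
      rw [this]; push_cast; ring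
    · push_cast; ring
  obtain ⟨c, hc⟩ : (8 * (2 * s + 1 : ℤ) ^ 2) ∣
      (∏ t ∈ range s, ((2 * t + 1 : ℤ) * (2 * (2 * s + 1) - (2 * t + 1)) + 8 * (2 * s + 1) ^ 2)) -
      ∏ t ∈ range s, ((2 * t + 1 : ℤ) * (2 * (2 * s + 1) - (2 * t + 1))) := by
    apply prod_shift_dvd
    intro t _
    exact ⟨1, by ring⟩
  rw [h1, h2]
  set X := ∏ t ∈ range s, ((2 * t + 1 : ℤ) * (2 * (2 * s + 1) - (2 * t + 1)) + 8 * (2 * s + 1) ^ 2)
  set Y := ∏ t ∈ range s, ((2 * t + 1 : ℤ) * (2 * (2 * s + 1) - (2 * t + 1)))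
  have hX : X = Y + 8 * (2 * s + 1 : ℤ) ^ 2 * c := by linarith
  rw [hX]
  exact ⟨(Y + 6 * (2 * s + 1 : ℤ) ^ 2 * c) * (2 * s + 1), by ring⟩

lemma two_pow_dvd_of_odd_mul {x P : ℤ} {n : ℕ} (hP : ¬ (2 : ℤ) ∣ P) (h : (2 : ℤ) ^ n ∣ x * P) :
    (2 : ℤ) ^ n ∣ x := by
  have hcop : IsCoprime ((2 : ℤ) ^ n) P := by
    apply IsCoprime.pow_left
    exact (Prime.coprime_iff_not_dvd Int.prime_two).mpr hP
  exact hcop.dvd_of_dvd_mul_right h

lemma central_even {k e : ℕ} (hk : Even k) (hk0 : 0 < k) (he : 2 ^ e ∣ k) :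
    (2 : ℤ) ^ (2 * e + 4) ∣ ((2 * k).centralBinom : ℤ) - k.centralBinom := by
  obtain ⟨s, hs⟩ := hk
  have hs' : k = 2 * s := by omega
  have hPnd : ¬ (2 : ℤ) ∣ PP 2 k := by exact_mod_cast PP_not_dvd Nat.prime_two k
  apply two_pow_dvd_of_odd_mul hPnd
  have h5 : (((2 * k).centralBinom : ℤ) - k.centralBinom) * PP 2 k =
      k.centralBinom * (QQ 2 k - PP 2 k) := by
    rw [sub_mul, central_PQ 2 (by norm_num) k]; ring
  rw [h5]
  have h6 : (8 * (k : ℤ) ^ 2) ∣ QQ 2 k - PP 2 k := by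
    have := QP_two_even s
    rw [hs']
    exact_mod_cast this
  have h7 : (2 : ℤ) ∣ k.centralBinom := by
    exact_mod_cast Nat.two_dvd_centralBinom_of_one_le hk0
  have h8 : ((2 : ℤ) ^ e) ^ 2 ∣ (k : ℤ) ^ 2 := by
    apply pow_dvd_pow_of_dvd
    exact_mod_cast he
  have h9 : (2 : ℤ) ^ (2 * e + 4) = 2 * (8 * (2 ^ e) ^ 2) := by ring
  rw [h9]
  exact mul_dvd_mul h7 ((mul_dvd_mul_left 8 h8).trans h6)

lemma central_odd_two_aux {k : ℕ} (hk : Odd k) :
    (4 * k.centralBinom : ℤ) ∣ (((2 * k).centralBinom : ℤ) + k.centralBinom) * PP 2 k := by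
  obtain ⟨s, hs⟩ := hk
  have h5 : (((2 * k).centralBinom : ℤ) + k.centralBinom) * PP 2 k =
      k.centralBinom * (QQ 2 k + PP 2 k) := by
    rw [add_mul, central_PQ 2 (by norm_num) k]; ring
  have h6 : (4 : ℤ) ∣ QQ 2 k + PP 2 k := by
    rw [hs]; exact QP_two_odd s
  rw [h5, mul_comm 4]
  exact mul_dvd_mul_left _ h6

lemma four_dvd_central {k : ℕ} (hk : Odd k) (hk3 : 3 ≤ k) : 4 ∣ k.centralBinom := by
  obtain ⟨n, rfl⟩ : ∃ n, k = n + 1 := ⟨k - 1, by omega⟩
  have h1 := Nat.succ_mul_centralBinom_succ n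
  have h2 : 2 ∣ n.centralBinom := Nat.two_dvd_centralBinom_of_one_le (by omega)
  have h3 : 4 ∣ (n + 1) * (n + 1).centralBinom := by
    rw [h1]
    obtain ⟨c, hc⟩ := h2
    exact ⟨(2 * n + 1) * c, by rw [hc]; ring⟩
  have h4 : Nat.Coprime 4 (n + 1) := by
    have : Nat.Coprime 2 (n + 1) := by
      rw [Nat.coprime_comm]
      exact Nat.Coprime.symm (Nat.coprime_two_left.mpr hk)
    exact Nat.Coprime.pow_left 2 this
  exact h4.dvd_of_dvd_mul_left h3

/-- odd `k`: `8 ∣ C(4k,2k) + C(2k,k)` -/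
lemma central_odd_two {k : ℕ} (hk : Odd k) :
    (2 : ℤ) ^ 3 ∣ ((2 * k).centralBinom : ℤ) + k.centralBinom := by
  have hPnd : ¬ (2 : ℤ) ∣ PP 2 k := by exact_mod_cast PP_not_dvd Nat.prime_two k
  apply two_pow_dvd_of_odd_mul hPnd
  refine Dvd.dvd.trans ?_ (central_odd_two_aux hk)
  have h7 : (2 : ℤ) ∣ k.centralBinom := by
    exact_mod_cast Nat.two_dvd_centralBinom_of_one_le hk.pos
  have : (2 : ℤ) ^ 3 = 4 * 2 := by norm_num
  rw [this]
  exact mul_dvd_mul_left 4 h7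

/-- odd `k ≥ 3`: `16 ∣ C(4k,2k) + C(2k,k)` -/
lemma central_odd_two' {k : ℕ} (hk : Odd k) (hk3 : 3 ≤ k) :
    (2 : ℤ) ^ 4 ∣ ((2 * k).centralBinom : ℤ) + k.centralBinom := by
  have hPnd : ¬ (2 : ℤ) ∣ PP 2 k := by exact_mod_cast PP_not_dvd Nat.prime_two k
  apply two_pow_dvd_of_odd_mul hPnd
  refine Dvd.dvd.trans ?_ (central_odd_two_aux hk)
  have h7 : (4 : ℤ) ∣ k.centralBinom := by
    exact_mod_cast four_dvd_central hk hk3
  have : (2 : ℤ) ^ 4 = 4 * 4 := by norm_num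
  rw [this]
  exact mul_dvd_mul_left 4 h7

end MPa4e0fb
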