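import Mathlib

/-!
# Klemm-Pandharipande numbers of Calabi-Yau 4-folds: definitions

`Γ` is the group `H_2(X, ℤ)`, `E` the set of classes `β > 0` (nonzero effective classes). A formal
series `∑ f_β q^β` is represented by the function `f : Γ → ℚ`. All infinite sums are finite sums
(`finsum`) once `f` vanishes outside `E`.
-/

open Finset Function
open scoped Classical

namespace MPa4e0fb

variable {Γ : Type*} [AddCommGroup Γ]

/-- Multiple cover sum `∑_{k ≥ 1, kα = β} a(k) f(α)`. -/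
noncomputable def mcs (a : ℕ → ℚ) (f : Γ → ℚ) (β : Γ) : ℚ :=
  ∑ᶠ x : ℕ × Γ, if 0 < x.1 ∧ x.1 • x.2 = β then a x.1 * f x.2 else 0

/-- `∑_{k, l ≥ 1, kα + lγ = β} p(α, γ)`. -/
noncomputable def pairSum (p : Γ → Γ → ℚ) (β : Γ) : ℚ :=
  ∑ᶠ x : (ℕ × ℕ) × (Γ × Γ),
    if (0 < x.1.1 ∧ 0 < x.1.2) ∧ x.1.1 • x.2.1 + x.1.2 • x.2.2 = β then p x.2.1 x.2.2 else 0

/-- The Klemm-Pandharipande rules (i)-(iv) for the meeting numbers, with `c β = n_{0,β}(c_2(X))` and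
`p β₁ β₂ = ⟨β₁, β₂⟩`. -/
structure IsMeeting (deg : Γ →+ ℤ) (c : Γ → ℚ) (p : Γ → Γ → ℚ) (m : Γ → Γ → ℚ) : Prop where
  symm : ∀ a b, m a b = m b a
  zero : ∀ a b, deg a ≤ 0 ∨ deg b ≤ 0 → m a b = 0
  step : ∀ a b, a ≠ b → m a b = p a b + m a (b - a) + m (a - b) b
  diag : ∀ b, m b b = c b + p b b - ∑ᶠ a, m a (b - a)

/-- `∑_{d ≥ 1, d(β₁ + β₂) = β} m(β₁, β₂) / d`. -/
noncomputable def meetSum (m : Γ → Γ → ℚ) (β : Γ) : ℚ :=
  ∑ᶠ x : ℕ × (Γ × Γ), if 0 < x.1 ∧ x.1 • (x.2.1 + x.2.2) = β then m x.2.1 x.2.2 / x.1 else 0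

/-- The set `E` of classes `β > 0`: positive degree, closed under addition, finitely many classes of
bounded degree. -/
structure IsEff (deg : Γ →+ ℤ) (E : Set Γ) : Prop where
  pos : ∀ β ∈ E, 0 < deg β
  add : ∀ α ∈ E, ∀ β ∈ E, α + β ∈ E
  fin : ∀ D : ℤ, {β | β ∈ E ∧ deg β ≤ D}.Finite

/-- The Klemm-Pandharipande definition of the genus-one numbers `n_{1,β}`, coefficient by
coefficient in the Novikov variable. -/
def IsGenusOne (E : Set Γ) (GW1 c : Γ → ℚ) (m : Γ → Γ → ℚ) (n1 : Γ → ℚ) : Prop :=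
  (∀ β, β ∉ E → n1 β = 0) ∧
  ∀ β ∈ E, GW1 β = mcs (fun d => (∑ i ∈ d.divisors, (i : ℚ)) / d) n1 β
    + 1 / 24 * (-mcs (fun d => 1 / (d : ℚ)) c β + meetSum m β)

end MPa4e0fb
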