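import Pool.Agent.Lib.MP_a4e0fb_ag.H72Binom

open Finset

namespace MPa4e0fb

lemma ord_dvd_of_not_dvd_div {p d a r : ℕ} (hp : p.Prime) (hd : 0 < d) (hr : p ^ r ∣ d)
    (ha : a ∣ d) (hna : ¬ a * p ∣ d) : p ^ r ∣ a ∧ ¬ p ∣ d / a := by
  obtain ⟨c, hc⟩ := ha
  have ha0 : 0 < a := Nat.pos_of_ne_zero (by rintro rfl; simp at hc; omega)
  have hpc : ¬ p ∣ c := by
    rintro ⟨t, rfl⟩
    exact hna ⟨t, by rw [hc]; ring⟩
  refine ⟨?_, ?_⟩
  · have hcop : Nat.Coprime (p ^ r) c := Nat.Coprime.pow_left _ ((Nat.Prime.coprime_iff_not_dvd hp).mpr hpc)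
    rw [hc] at hr
    exact hcop.dvd_of_dvd_mul_right hr
  · rw [hc, Nat.mul_div_cancel_left _ ha0]
    exact hpc

/-- A Dwork type integrality criterion. -/
lemma dwork_int (e : ℕ) (b : ℕ → ℤ)
    (hb : ∀ p m r : ℕ, p.Prime → 0 < m → p ^ r ∣ p * m → ((p : ℤ) ^ (e * r)) ∣ b (p * m) - b m)
    (n : ℕ → ℚ) (hn : ∀ d : ℕ, 0 < d → ∑ a ∈ d.divisors, (a : ℚ) ^ e * n a = b d) :
    ∀ d : ℕ, 0 < d → ∃ z : ℤ, n d = z := by
  intro d
  induction d using Nat.strong_induction_on with
  | _ d ih =>
    intro hd
    have hex : ∀ a, ∃ z : ℤ, (0 < a ∧ a < d) → n a = z := by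
      intro a
      by_cases h : 0 < a ∧ a < d
      · obtain ⟨z, hz⟩ := ih a h.2 h.1
        exact ⟨z, fun _ => hz⟩
      · exact ⟨0, fun h' => absurd h' h⟩
    choose nz hnz using hex
    set X : ℤ := b d - ∑ a ∈ d.properDivisors, (a : ℤ) ^ e * nz a with hX
    have h1 : (d : ℚ) ^ e * n d = X := by
      have h2 := hn d hd
      rw [← Nat.insert_self_properDivisors hd.ne', Finset.sum_insert (by simp)] at h2
      have h3 : ∑ a ∈ d.properDivisors, (a : ℚ) ^ e * n a =
          ((∑ a ∈ d.properDivisors, (a : ℤ) ^ e * nz a : ℤ) : ℚ) := by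
        push_cast
        apply Finset.sum_congr rfl
        intro a ha
        rw [Nat.mem_properDivisors] at ha
        rw [hnz a ⟨Nat.pos_of_dvd_of_pos ha.1 hd, ha.2⟩]
      rw [h3] at h2
      rw [hX]
      push_cast at h2 ⊢
      linarith
    have h4 : ((d : ℤ) ^ e) ∣ X := by
      rw [← Int.natAbs_dvd_natAbs, Int.natAbs_pow, Int.natAbs_natCast, Nat.dvd_iff_prime_pow_dvd_dvd]
      intro p k hp hk
      rcases Nat.eq_zero_or_pos k with hk0 | hk0
      · subst hk0; simp
      have hpd : p ∣ d := hp.dvd_of_dvd_pow ((dvd_pow_self p hk0.ne').trans hk)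
      obtain ⟨m, hm⟩ := hpd
      have hm0 : 0 < m := Nat.pos_of_ne_zero (by rintro rfl; simp at hm; omega)
      -- r = v_p(d)
      set r := d.factorization p with hr
      have hr1 : p ^ r ∣ d := Nat.ordProj_dvd d p
      have hkr : k ≤ e * r := by
        have := (Nat.factorization_le_iff_dvd (by exact pow_ne_zero _ hp.ne_zero)
          (pow_ne_zero _ hd.ne')).mpr hk
        have h' := this p
        rw [Nat.factorization_pow, Nat.factorization_pow] at h'
        simp only [Finsupp.smul_apply, smul_eq_mul] at h'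
        rw [Nat.Prime.factorization_self hp] at h'
        simpa using h'
      have hdiv : ((p : ℤ) ^ (e * r)) ∣ X := by
        have h5 : ∑ a ∈ m.divisors, (a : ℤ) ^ e * nz a = b m := by
          have h6 := hn m hm0
          have hmd : m < d := by
            rw [hm]; nlinarith [hp.one_lt]
          have h7 : ∑ a ∈ m.divisors, (a : ℚ) ^ e * n a =
              ((∑ a ∈ m.divisors, (a : ℤ) ^ e * nz a : ℤ) : ℚ) := by
            push_cast
            apply Finset.sum_congr rfl
            intro a ha
            have ha1 := Nat.divisor_le ha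
            rw [hnz a ⟨Nat.pos_of_mem_divisors ha, by omega⟩]
          rw [h7] at h6
          exact_mod_cast h6
        have hsub : m.divisors ⊆ d.properDivisors := by
          intro a ha
          rw [Nat.mem_properDivisors]
          have h8 := Nat.dvd_of_mem_divisors ha
          have h9 := Nat.divisor_le ha
          refine ⟨h8.trans ⟨p, by rw [hm]; ring⟩, ?_⟩
          have hmd : m < d := by
            rw [hm]; nlinarith [hp.one_lt]
          omega
        have h10 : X = (b d - b m) - ∑ a ∈ d.properDivisors \ m.divisors, (a : ℤ) ^ e * nz a := by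
          rw [hX, ← h5, ← Finset.sum_sdiff hsub]
          ring
        rw [h10]
        apply dvd_sub
        · have := hb p m r hp hm0 (by rw [← hm]; exact hr1)
          rw [hm]
          exact this
        · apply Finset.dvd_sum
          intro a ha
          rw [Finset.mem_sdiff, Nat.mem_properDivisors, Nat.mem_divisors] at ha
          have h11 : ¬ a * p ∣ d := by
            intro h
            apply ha.2
            refine ⟨?_, hm0.ne'⟩
            rw [hm, mul_comm p m] at h
            exact Nat.dvd_of_mul_dvd_mul_right hp.pos h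
          have h12 := (ord_dvd_of_not_dvd_div hp hd hr1 ha.1.1 h11).1
          have h13 : ((p : ℤ) ^ r) ∣ (a : ℤ) := by exact_mod_cast h12
          have h14 := pow_dvd_pow_of_dvd h13 e
          rw [← pow_mul, mul_comm r e] at h14
          exact h14.mul_right _
      have h15 : ((p : ℤ) ^ k) ∣ X := (pow_dvd_pow _ hkr).trans hdiv
      have := Int.natAbs_dvd_natAbs.mpr h15
      rwa [Int.natAbs_pow, Int.natAbs_natCast] at this
    obtain ⟨z, hz⟩ := h4
    refine ⟨z, ?_⟩
    have hd' : (d : ℚ) ^ e ≠ 0 := by positivity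
    apply mul_left_cancel₀ hd'
    rw [h1, hz]
    push_cast
    ring

end MPa4e0fb
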