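import Pool.Agent.Lib.MP_a4e0fb_ag.H72Meeting

open Finset Function
open scoped Classical

namespace MPa4e0fb

variable {Γ : Type*} [AddCommGroup Γ] {deg : Γ →+ ℤ} {E : Set Γ}

lemma push_fin (hE : IsEff deg E) {f : Γ → ℚ} (hf : ∀ α, α ∉ E → f α = 0) {k : ℕ} (hk : 0 < k)
    (β : Γ) : (support fun α => if k • α = β then f α else 0).Finite :=
  fin_support_aux hE f hf (deg β) (fun α => k • α = β)
    (fun _ hα h => (deg_le_of_nsmul hE hk hα h).1)

lemma push_add' (hE : IsEff deg E) {f g : Γ → ℚ} (hf : ∀ α, α ∉ E → f α = 0)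
    (hg : ∀ α, α ∉ E → g α = 0) {k : ℕ} (hk : 0 < k) (β : Γ) :
    push k (fun α => f α + g α) β = push k f β + push k g β := by
  unfold push
  rw [← finsum_add_distrib (push_fin hE hf hk β) (push_fin hE hg hk β)]
  apply finsum_congr
  intro α
  split_ifs <;> simp

lemma push_smul' (r : ℚ) (f : Γ → ℚ) (k : ℕ) (β : Γ) :
    push k (fun α => r * f α) β = r * push k f β := by
  unfold push
  rw [mul_finsum]
  apply finsum_congr
  intro α
  split_ifs <;> simp

lemma push_sum' (hE : IsEff deg E) {ι : Type*} (s : Finset ι) (f : ι → Γ → ℚ)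
    (hf : ∀ i ∈ s, ∀ α, α ∉ E → f i α = 0) {k : ℕ} (hk : 0 < k) (β : Γ) :
    push k (fun α => ∑ i ∈ s, f i α) β = ∑ i ∈ s, push k (f i) β := by
  induction s using Finset.induction_on with
  | empty =>
    simp only [Finset.sum_empty, push, ite_self]
    exact finsum_zero
  | insert i s hi ih =>
    simp only [Finset.sum_insert hi]
    rw [push_add' hE (hf i (Finset.mem_insert_self i s)) _ hk β]
    · rw [ih (fun j hj => hf j (Finset.mem_insert_of_mem hj))]
    · intro α hα
      apply Finset.sum_eq_zero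
      intro j hj
      exact hf j (Finset.mem_insert_of_mem hj) α hα

lemma push_push (hE : IsEff deg E) {f : Γ → ℚ} (hf : ∀ α, α ∉ E → f α = 0) {k l : ℕ}
    (hk : 0 < k) (hl : 0 < l) (β : Γ) :
    push k (push l f) β = push (k * l) f β := by
  -- both sides are sums over pairs `(α, γ)` with `kα = β`, `lγ = α`
  let F : Γ × Γ → ℚ := fun x => if k • x.1 = β ∧ l • x.2 = x.1 then f x.2 else 0
  have hF : (support F).Finite := by
    have h1 := push_fin hE hf (k := k * l) (Nat.mul_pos hk hl) β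
    refine (h1.image (fun γ => (l • γ, γ))).subset ?_
    rintro ⟨α, γ⟩ hx
    rw [mem_support] at hx
    have hc : k • α = β ∧ l • γ = α := by
      by_contra h; exact hx (if_neg h)
    have hf0 : f γ ≠ 0 := by
      intro h; apply hx; simp only [F]; rw [if_pos hc]; exact h
    refine ⟨γ, ?_, ?_⟩
    · rw [mem_support]
      rw [if_pos]
      · exact hf0
      · rw [mul_nsmul', hc.2, hc.1]
    · simp only [Prod.mk.injEq, and_true]; exact hc.2
  have e1 : push k (push l f) β = ∑ᶠ x, F x := by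
    rw [finsum_curry _ hF]
    unfold push
    apply finsum_congr
    intro α
    by_cases h : k • α = β
    · simp only [F, h, true_and, if_true]
    · simp only [F, h, false_and, if_false]
      exact finsum_zero.symm
  have hF' : (support fun x : Γ × Γ => F x.swap).Finite := by
    have := hF.preimage (Prod.swap_injective (α := Γ) (β := Γ)).injOn
    exact this
  have e2 : push (k * l) f β = ∑ᶠ x, F x := by
    rw [← finsum_comp_equiv (Equiv.prodComm Γ Γ)]
    simp only [Equiv.prodComm_apply]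
    rw [finsum_curry _ hF']
    unfold push
    apply finsum_congr
    intro γ
    rw [finsum_eq_single _ (l • γ)]
    · simp only [F, Prod.swap_prod_mk]
      by_cases h : (k * l) • γ = β
      · rw [if_pos h, if_pos]
        refine ⟨?_, trivial⟩
        rw [← h, mul_nsmul']
      · rw [if_neg h, if_neg]
        rintro ⟨h1, _⟩
        apply h
        rw [mul_nsmul']
        exact h1
    · intro α hα
      simp only [F, Prod.swap_prod_mk]
      rw [if_neg]
      rintro ⟨_, h2⟩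
      exact hα h2.symm
  rw [e1, e2]

lemma push_one (f : Γ → ℚ) (β : Γ) : push 1 f β = f β := by
  unfold push
  rw [finsum_eq_single _ β]
  · simp
  · intro α hα
    rw [if_neg]
    simpa using hα

lemma mcs_supp (hE : IsEff deg E) (a : ℕ → ℚ) {f : Γ → ℚ} (hf : ∀ α, α ∉ E → f α = 0) :
    ∀ β, β ∉ E → mcs a f β = 0 := by
  intro β hβ
  rw [mcs_eq hE a hf (Int.self_le_toNat (deg β))]
  apply Finset.sum_eq_zero
  intro k hk
  rw [mem_Icc] at hk
  rw [push_zero_of_not_mem hE hf hk.1 hβ, mul_zero]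

/-- Dirichlet convolution of weights. -/
def dconv (a b : ℕ → ℚ) (n : ℕ) : ℚ := ∑ x ∈ n.divisorsAntidiagonal, a x.1 * b x.2

lemma sum_mul_index {D : ℕ} (a b F : ℕ → ℚ) (hF : ∀ j, D < j → F j = 0) :
    ∑ k ∈ Icc 1 D, ∑ l ∈ Icc 1 D, a k * b l * F (k * l) = ∑ n ∈ Icc 1 D, dconv a b n * F n := by
  have h1 : ∑ n ∈ Icc 1 D, dconv a b n * F n =
      ∑ n ∈ Icc 1 D, ∑ x ∈ n.divisorsAntidiagonal, a x.1 * b x.2 * F (x.1 * x.2) := by
    apply Finset.sum_congr rfl
    intro n _
    unfold dconv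
    rw [Finset.sum_mul]
    apply Finset.sum_congr rfl
    intro x hx
    rw [(Nat.mem_divisorsAntidiagonal.mp hx).1]
  rw [h1, ← Finset.sum_product', Finset.sum_sigma']
  have h2 : ∑ x ∈ Icc 1 D ×ˢ Icc 1 D, a x.1 * b x.2 * F (x.1 * x.2) =
      ∑ x ∈ (Icc 1 D ×ˢ Icc 1 D).filter (fun x => x.1 * x.2 ≤ D), a x.1 * b x.2 * F (x.1 * x.2) := by
    rw [Finset.sum_filter]
    apply Finset.sum_congr rfl
    intro x _
    split_ifs with h
    · rfl
    · rw [hF _ (by omega), mul_zero]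
  rw [h2]
  refine Finset.sum_nbij' (fun x => ⟨x.1 * x.2, x⟩) (fun y => y.2) ?_ ?_ ?_ ?_ ?_
  · rintro ⟨k, l⟩ hx
    simp only [mem_filter, mem_product, mem_Icc] at hx
    simp only [mem_sigma, mem_Icc, Nat.mem_divisorsAntidiagonal]
    have := Nat.mul_pos hx.1.1.1 hx.1.2.1
    refine ⟨⟨this, hx.2⟩, trivial, by omega⟩
  · rintro ⟨n, k, l⟩ hx
    simp only [mem_sigma, mem_Icc, Nat.mem_divisorsAntidiagonal] at hx
    simp only [mem_filter, mem_product, mem_Icc]
    obtain ⟨⟨h1, h2⟩, h3, h4⟩ := hx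
    have hk : k ≠ 0 := by rintro rfl; simp at h3; omega
    have hl : l ≠ 0 := by rintro rfl; simp at h3; omega
    have hk1 : k ≤ k * l := Nat.le_mul_of_pos_right _ (by omega)
    have hl1 : l ≤ k * l := Nat.le_mul_of_pos_left _ (by omega)
    omega
  · rintro ⟨k, l⟩ _
    rfl
  · rintro ⟨n, k, l⟩ hx
    simp only [mem_sigma, mem_Icc, Nat.mem_divisorsAntidiagonal] at hx
    obtain ⟨_, h3, _⟩ := hx
    subst h3
    rfl
  · rintro ⟨k, l⟩ _
    rfl

lemma mcs_mcs (hE : IsEff deg E) (a b : ℕ → ℚ) {f : Γ → ℚ} (hf : ∀ α, α ∉ E → f α = 0) (β : Γ) :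
    mcs a (mcs b f) β = mcs (dconv a b) f β := by
  obtain ⟨D, hD⟩ : ∃ D : ℕ, deg β ≤ D := ⟨(deg β).toNat, Int.self_le_toNat _⟩
  rw [mcs_eq hE a (mcs_supp hE b hf) hD, mcs_eq hE _ hf hD]
  have h1 : ∀ k ∈ Icc 1 D, a k * push k (mcs b f) β =
      ∑ l ∈ Icc 1 D, a k * b l * push (k * l) f β := by
    intro k hk
    rw [mem_Icc] at hk
    have e1 : push k (mcs b f) β = push k (fun α => ∑ l ∈ Icc 1 D, b l * push l f α) β := by
      unfold push
      apply finsum_congr
      intro α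
      split_ifs with h
      · rw [mcs_eq hE b hf (D := D)]
        · rfl
        · rw [← h, deg_nsmul] at hD
          have hk' : (1 : ℤ) ≤ k := by exact_mod_cast hk.1
          by_cases h0 : deg α ≤ 0
          · have : (0 : ℤ) ≤ D := by positivity
            omega
          · push Not at h0
            nlinarith
      · rfl
    rw [e1, push_sum' hE _ (fun l α => b l * push l f α) _ hk.1 β, Finset.mul_sum]
    · apply Finset.sum_congr rfl
      intro l hl
      rw [mem_Icc] at hl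
      rw [push_smul', push_push hE hf hk.1 hl.1]
      ring
    · intro l hl α hα
      rw [mem_Icc] at hl
      rw [push_zero_of_not_mem hE hf hl.1 hα, mul_zero]
  rw [Finset.sum_congr rfl h1]
  apply sum_mul_index a b (fun n => push n f β)
  intro j hj
  apply push_zero_of_gt hE hf
  · have : (D : ℤ) < j := by exact_mod_cast hj
    omega
  · omega

lemma mcs_add' (hE : IsEff deg E) (a : ℕ → ℚ) {f g : Γ → ℚ} (hf : ∀ α, α ∉ E → f α = 0)
    (hg : ∀ α, α ∉ E → g α = 0) (β : Γ) :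
    mcs a (fun α => f α + g α) β = mcs a f β + mcs a g β := by
  have hD := Int.self_le_toNat (deg β)
  rw [mcs_eq hE a hf hD, mcs_eq hE a hg hD, mcs_eq hE a _ hD, ← Finset.sum_add_distrib]
  · apply Finset.sum_congr rfl
    intro k hk
    rw [mem_Icc] at hk
    rw [push_add' hE hf hg hk.1 β, mul_add]
  · intro α hα
    rw [hf α hα, hg α hα, add_zero]

lemma mcs_smul' (a : ℕ → ℚ) (r : ℚ) (f : Γ → ℚ) (β : Γ) :
    mcs a (fun α => r * f α) β = r * mcs a f β := by
  unfold mcs
  rw [mul_finsum]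
  apply finsum_congr
  intro x
  split_ifs
  · ring
  · simp

lemma mcs_inj (hE : IsEff deg E) (a : ℕ → ℚ) (ha : a 1 ≠ 0) {h : Γ → ℚ}
    (hh : ∀ α, α ∉ E → h α = 0) (h0 : ∀ β ∈ E, mcs a h β = 0) : ∀ β, h β = 0 := by
  have key : ∀ N : ℕ, ∀ β ∈ E, deg β ≤ N → h β = 0 := by
    intro N
    induction N with
    | zero =>
      intro β hβ hN
      have := hE.pos β hβ
      push_cast at hN
      omega
    | succ N ih =>
      intro β hβ hN
      have h1 := h0 β hβ
      rw [mcs_eq hE a hh hN, ← Finset.add_sum_Ioc_eq_sum_Icc (by omega), push_one] at h1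
      have h2 : ∑ k ∈ Ioc 1 (N + 1), a k * push k h β = 0 := by
        apply Finset.sum_eq_zero
        intro k hk
        rw [mem_Ioc] at hk
        have : push k h β = 0 := by
          unfold push
          apply finsum_eq_zero_of_forall_eq_zero
          intro α
          split_ifs with hα
          · by_cases hαE : α ∈ E
            · apply ih α hαE
              rw [← hα, deg_nsmul] at hN
              have hk' : (2 : ℤ) ≤ k := by exact_mod_cast hk.1
              have := hE.pos α hαE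
              push_cast at hN
              nlinarith
            · exact hh α hαE
          · rfl
        rw [this, mul_zero]
      rw [h2, add_zero] at h1
      exact (mul_eq_zero.mp h1).resolve_left ha
  intro β
  by_cases hβ : β ∈ E
  · exact key (deg β).toNat β hβ (Int.self_le_toNat _)
  · exact hh β hβ

/-- diagonal sums `M δ = ∑_{β₁+β₂=δ} m(β₁, β₂)` -/
noncomputable def msum (m : Γ → Γ → ℚ) (δ : Γ) : ℚ := ∑ᶠ a, m a (δ - a)

lemma msum_supp (hE : IsEff deg E) {m : Γ → Γ → ℚ} (hm0 : ∀ a b, a ∉ E ∨ b ∉ E → m a b = 0) :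
    ∀ δ, δ ∉ E → msum m δ = 0 := by
  intro δ hδ
  apply finsum_eq_zero_of_forall_eq_zero
  intro a
  by_contra hne
  apply hδ
  have h1 : a ∈ E := by
    by_contra h'; exact hne (hm0 _ _ (Or.inl h'))
  have h2 : δ - a ∈ E := by
    by_contra h'; exact hne (hm0 _ _ (Or.inr h'))
  have := hE.add _ h1 _ h2
  simpa using this

lemma meetSum_eq (hE : IsEff deg E) {m : Γ → Γ → ℚ} (hm0 : ∀ a b, a ∉ E ∨ b ∉ E → m a b = 0)
    (β : Γ) : meetSum m β = mcs (fun k => 1 / (k : ℚ)) (msum m) β := by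
  -- finite support of the triple sum
  let e : ℕ × (Γ × Γ) ≃ ℕ × (Γ × Γ) := (Equiv.refl ℕ).prodCongr (sumEquiv Γ).symm
  have key : ∀ (k : ℕ) (a b : Γ), (if 0 < k ∧ k • (a + b) = β then m a b / k else 0) ≠ 0 →
      (0 < k ∧ k ≤ (deg β).toNat) ∧ (a ∈ E ∧ deg a ≤ deg β) ∧ (b ∈ E ∧ deg b ≤ deg β) := by
    intro k a b hx
    have h1 : 0 < k ∧ k • (a + b) = β := by
      by_contra h'; exact hx (if_neg h')
    have h2 : m a b ≠ 0 := by
      intro h'; apply hx; rw [if_pos h1, h', zero_div]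
    have ha : a ∈ E := by
      by_contra h'; exact h2 (hm0 _ _ (Or.inl h'))
    have hb : b ∈ E := by
      by_contra h'; exact h2 (hm0 _ _ (Or.inr h'))
    have h3 := deg_le_of_two (β := β) hE h1.1 h1.1 ha hb (by rw [← nsmul_add]; exact h1.2)
    refine ⟨⟨h1.1, ?_⟩, ⟨ha, h3.1⟩, ⟨hb, h3.2.1⟩⟩
    have h4 := Int.self_le_toNat (deg β)
    omega
  have hfin : (support fun x : ℕ × (Γ × Γ) =>
      if 0 < x.1 ∧ x.1 • (x.2.1 + x.2.2) = β then m x.2.1 x.2.2 / x.1 else 0).Finite := by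
    refine ((Icc 1 (deg β).toNat).finite_toSet.prod
      ((hE.fin (deg β)).prod (hE.fin (deg β)))).subset ?_
    rintro ⟨k, a, b⟩ hx
    have := key k a b hx
    refine ⟨?_, this.2.1, this.2.2⟩
    simp only [coe_Icc, Set.mem_Icc]
    exact this.1
  unfold meetSum
  rw [← finsum_comp_equiv e]
  have hcomp : ∀ x : ℕ × (Γ × Γ), (e x).1 = x.1 ∧ (e x).2.1 + (e x).2.2 = x.2.1 ∧
      (e x).2.1 = x.2.2 ∧ (e x).2.2 = x.2.1 - x.2.2 := by
    intro x
    simp [e, sumEquiv]
  have e1 : (∑ᶠ x, if 0 < (e x).1 ∧ (e x).1 • ((e x).2.1 + (e x).2.2) = β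
        then m (e x).2.1 (e x).2.2 / (e x).1 else 0) =
      ∑ᶠ x : ℕ × (Γ × Γ), if 0 < x.1 ∧ x.1 • x.2.1 = β then m x.2.2 (x.2.1 - x.2.2) / x.1 else 0 := by
    apply finsum_congr
    intro x
    rw [(hcomp x).1, (hcomp x).2.1, (hcomp x).2.2.1, (hcomp x).2.2.2]
  rw [e1]
  have hfin' : (support fun x : ℕ × (Γ × Γ) =>
      if 0 < x.1 ∧ x.1 • x.2.1 = β then m x.2.2 (x.2.1 - x.2.2) / x.1 else 0).Finite := by
    have := hfin.preimage e.injective.injOn
    refine this.subset ?_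
    intro x hx
    rw [Set.mem_preimage, mem_support]
    rw [mem_support] at hx
    rw [(hcomp x).1, (hcomp x).2.1, (hcomp x).2.2.1, (hcomp x).2.2.2]
    exact hx
  let G : (ℕ × Γ) × Γ → ℚ := fun y =>
    if 0 < y.1.1 ∧ y.1.1 • y.1.2 = β then m y.2 (y.1.2 - y.2) / y.1.1 else 0
  have hG : (support G).Finite := by
    have := hfin'.preimage (Equiv.prodAssoc ℕ Γ Γ).injective.injOn
    exact this
  have e2 : (∑ᶠ x : ℕ × (Γ × Γ), if 0 < x.1 ∧ x.1 • x.2.1 = β
      then m x.2.2 (x.2.1 - x.2.2) / x.1 else 0) = ∑ᶠ y, G y := by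
    rw [← finsum_comp_equiv (Equiv.prodAssoc ℕ Γ Γ)]
    rfl
  rw [e2, finsum_curry _ hG]
  unfold mcs msum
  apply finsum_congr
  rintro ⟨k, δ⟩
  by_cases h : 0 < k ∧ k • δ = β
  · simp only [G, h, and_self, if_true]
    rw [mul_finsum]
    apply finsum_congr
    intro a
    ring
  · simp only [G]
    rw [if_neg h]
    rw [finsum_eq_zero_of_forall_eq_zero]
    intro a
    rw [if_neg h]

lemma dconv_inv_one (n : ℕ) :
    dconv (fun k => 1 / (k : ℚ)) (fun _ => 1) n = (∑ i ∈ n.divisors, (i : ℚ)) / n := by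
  unfold dconv
  rcases Nat.eq_zero_or_pos n with h | h
  · subst h; simp
  rw [Finset.sum_div, Nat.sum_divisorsAntidiagonal' (fun a b => 1 / (a : ℚ) * 1)]
  apply Finset.sum_congr rfl
  intro i hi
  have h1 := Nat.dvd_of_mem_divisors hi
  have h2 : (i : ℚ) ≠ 0 := by
    have := Nat.pos_of_mem_divisors hi
    positivity
  have h3 : (n : ℚ) ≠ 0 := by positivity
  rw [Nat.cast_div h1 h2]
  field_simp

lemma dconv_id_one (n : ℕ) :
    dconv (fun k => (k : ℚ)) (fun _ => 1) n = ∑ i ∈ n.divisors, (i : ℚ) := by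
  unfold dconv
  rw [Nat.sum_divisorsAntidiagonal (fun a b => (a : ℚ) * 1)]
  simp

/-- **Elimination of the meeting numbers.** If `Z₁ = - ∑ g_β log (1 - q^β)`, then
`∑_{kα=β} σ(k) n_{1,α} = ∑_{kα=β} k g_α + (1/24)(∑_{kα=β} n_{0,α}(c_2) - ∑_{kα+lγ=β} ⟨α,γ⟩)`. -/
theorem genusOne_closed (hE : IsEff deg E) {c GW1 n1 g : Γ → ℚ} {p m : Γ → Γ → ℚ}
    (hc : ∀ a, a ∉ E → c a = 0) (hp : ∀ a b, a ∉ E ∨ b ∉ E → p a b = 0)
    (hm : IsMeeting deg c p m) (hn : IsGenusOne E GW1 c m n1)
    (hg0 : ∀ a, a ∉ E → g a = 0) (hg : ∀ β ∈ E, GW1 β = mcs (fun d => 1 / (d : ℚ)) g β) (β : Γ) :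
    mcs (fun k => ∑ i ∈ k.divisors, (i : ℚ)) n1 β =
      mcs (fun k => (k : ℚ)) g β + 1 / 24 * (mcs (fun _ => 1) c β - pairSum p β) := by
  have hm0 := fun a b => meeting_zero hE hc hp hm a b
  have hM0 := msum_supp hE hm0
  obtain ⟨hn0, hn1⟩ := hn
  have hC0 : ∀ a, a ∉ E → c a - msum m a = 0 := by
    intro a ha; rw [hc a ha, hM0 a ha]; simp
  have hcl := meeting_closed hE hc hp hm β
  have h11 : ∀ a, a ∉ E → mcs (fun _ => 1) n1 a = 0 := mcs_supp hE _ hn0
  -- the difference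
  let h : Γ → ℚ := fun a => g a + ((-1) * mcs (fun _ => 1) n1 a + (1 / 24) * (c a + (-1) * msum m a))
  have hh0 : ∀ a, a ∉ E → h a = 0 := by
    intro a ha
    simp only [h]
    rw [hg0 a ha, h11 a ha, hc a ha, hM0 a ha]; simp
  have s1 : ∀ a, a ∉ E → (-1) * msum m a = 0 := by intro a ha; rw [hM0 a ha]; simp
  have s2 : ∀ a, a ∉ E → c a + (-1) * msum m a = 0 := by intro a ha; rw [hc a ha, s1 a ha]; simp
  have s3 : ∀ a, a ∉ E → (1 / 24 : ℚ) * (c a + (-1) * msum m a) = 0 := by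
    intro a ha; rw [s2 a ha]; simp
  have s4 : ∀ a, a ∉ E → (-1) * mcs (fun _ => (1 : ℚ)) n1 a = 0 := by
    intro a ha; rw [h11 a ha]; simp
  have s5 : ∀ a, a ∉ E → (-1) * mcs (fun _ => (1 : ℚ)) n1 a + (1 / 24 : ℚ) * (c a + (-1) * msum m a) = 0 := by
    intro a ha; rw [s4 a ha, s3 a ha]; simp
  have expand : ∀ (w : ℕ → ℚ) (b : Γ), mcs w h b = mcs w g b + (-1 * mcs (dconv w (fun _ => 1)) n1 b
      + 1 / 24 * (mcs w c b + -1 * mcs w (msum m) b)) := by
    intro w b
    simp only [h]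
    rw [mcs_add' hE w hg0 s5, mcs_add' hE w s4 s3, mcs_smul', mcs_smul', mcs_add' hE w hc s1,
      mcs_smul', mcs_mcs hE w _ hn0]
  have hz : ∀ b ∈ E, mcs (fun d => 1 / (d : ℚ)) h b = 0 := by
    intro b hb
    have e1 := hn1 b hb
    rw [meetSum_eq hE hm0, hg b hb] at e1
    rw [expand]
    have e2 : dconv (fun k => 1 / (k : ℚ)) (fun _ => 1) =
        fun n : ℕ => (∑ i ∈ n.divisors, (i : ℚ)) / n := by
      funext n; exact dconv_inv_one n
    rw [e2, e1]
    ring
  have hall := mcs_inj hE _ (by norm_num) hh0 hz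
  have hfin : mcs (fun k => (k : ℚ)) h β = 0 := by
    have : h = fun _ => 0 := by funext a; exact hall a
    rw [this]
    unfold mcs
    simp
  rw [expand] at hfin
  have e3 : dconv (fun k => (k : ℚ)) (fun _ => 1) = fun n : ℕ => ∑ i ∈ n.divisors, (i : ℚ) := by
    funext n; exact dconv_id_one n
  rw [e3] at hfin
  have e4 : mcs (fun k => (k : ℚ)) (fun α => c α - ∑ᶠ a, m a (α - a)) β =
      mcs (fun k => (k : ℚ)) c β + -1 * mcs (fun k => (k : ℚ)) (msum m) β := by
    rw [← mcs_smul', ← mcs_add' hE _ hc s1]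
    congr 1
    funext a
    unfold msum
    ring
  rw [e4] at hcl
  linarith

/-- being an integer -/
def IsInt (x : ℚ) : Prop := ∃ z : ℤ, x = z

lemma IsInt.add {x y : ℚ} (hx : IsInt x) (hy : IsInt y) : IsInt (x + y) := by
  obtain ⟨a, rfl⟩ := hx; obtain ⟨b, rfl⟩ := hy; exact ⟨a + b, by push_cast; ring⟩
lemma IsInt.mul {x y : ℚ} (hx : IsInt x) (hy : IsInt y) : IsInt (x * y) := by
  obtain ⟨a, rfl⟩ := hx; obtain ⟨b, rfl⟩ := hy; exact ⟨a * b, by push_cast; ring⟩
lemma IsInt.sub {x y : ℚ} (hx : IsInt x) (hy : IsInt y) : IsInt (x - y) := by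
  obtain ⟨a, rfl⟩ := hx; obtain ⟨b, rfl⟩ := hy; exact ⟨a - b, by push_cast; ring⟩
lemma IsInt.zero : IsInt 0 := ⟨0, by simp⟩
lemma IsInt.natCast (n : ℕ) : IsInt (n : ℚ) := ⟨n, by simp⟩
lemma IsInt.sum {ι : Type*} (s : Finset ι) (f : ι → ℚ) (h : ∀ i ∈ s, IsInt (f i)) :
    IsInt (∑ i ∈ s, f i) := by
  induction s using Finset.induction_on with
  | empty => simpa using IsInt.zero
  | insert i s hi ih =>
    rw [Finset.sum_insert hi]
    exact (h i (Finset.mem_insert_self i s)).add (ih fun j hj => h j (Finset.mem_insert_of_mem hj))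

lemma push_isInt {f : Γ → ℚ} {k : ℕ} {β : Γ} (h : ∀ α, k • α = β → IsInt (f α)) :
    IsInt (push k f β) := by
  unfold push
  apply finsum_induction IsInt IsInt.zero (fun x y hx hy => hx.add hy)
  intro α
  split_ifs with hα
  · exact h α hα
  · exact IsInt.zero

/-- integrality of `n₁` is equivalent to integrality of its `σ`-transform -/
lemma isInt_iff (hE : IsEff deg E) {n1 : Γ → ℚ} (hn0 : ∀ a, a ∉ E → n1 a = 0) :
    (∀ β ∈ E, IsInt (n1 β)) ↔ ∀ β ∈ E, IsInt (mcs (fun k => ∑ i ∈ k.divisors, (i : ℚ)) n1 β) := by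
  have hw : ∀ k : ℕ, IsInt (∑ i ∈ k.divisors, (i : ℚ)) := fun k =>
    IsInt.sum _ _ fun i _ => IsInt.natCast i
  constructor
  · intro h β _
    rw [mcs_eq hE _ hn0 (Int.self_le_toNat (deg β))]
    apply IsInt.sum
    intro k _
    apply (hw k).mul
    apply push_isInt
    intro α _
    by_cases hα : α ∈ E
    · exact h α hα
    · rw [hn0 α hα]; exact IsInt.zero
  · intro h
    have key : ∀ N : ℕ, ∀ β ∈ E, deg β ≤ N → IsInt (n1 β) := by
      intro N
      induction N with
      | zero =>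
        intro β hβ hN
        have := hE.pos β hβ
        push_cast at hN
        omega
      | succ N ih =>
        intro β hβ hN
        have h1 := h β hβ
        rw [mcs_eq hE _ hn0 hN, ← Finset.add_sum_Ioc_eq_sum_Icc (by omega), push_one] at h1
        have h2 : IsInt (∑ k ∈ Ioc 1 (N + 1), (∑ i ∈ k.divisors, (i : ℚ)) * push k n1 β) := by
          apply IsInt.sum
          intro k hk
          rw [mem_Ioc] at hk
          apply (hw k).mul
          apply push_isInt
          intro α hα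
          by_cases hαE : α ∈ E
          · apply ih α hαE
            rw [← hα, deg_nsmul] at hN
            have hk' : (2 : ℤ) ≤ k := by exact_mod_cast hk.1
            have := hE.pos α hαE
            push_cast at hN
            nlinarith
          · rw [hn0 α hαE]; exact IsInt.zero
        have h3 := h1.sub h2
        have h4 : (∑ i ∈ (1 : ℕ).divisors, (i : ℚ)) = 1 := by simp
        rw [h4] at h3
        convert h3 using 1
        ring
    intro β hβ
    exact key (deg β).toNat β hβ (Int.self_le_toNat _)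

end MPa4e0fb
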