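import Pool.Agent.Lib.MP_a4e0fb_ag.H72Dwork

open Finset

namespace MPa4e0fb

/-- `b(d) = (-1)^d C(2d,d) / 2` -/
def bb (d : ℕ) : ℤ := (-1) ^ d * ((d.centralBinom / 2 : ℕ) : ℤ)

lemma two_bb {d : ℕ} (hd : 0 < d) : 2 * bb d = (-1) ^ d * (d.centralBinom : ℤ) := by
  have h := Nat.two_dvd_centralBinom_of_one_le hd
  have h2 : 2 * (d.centralBinom / 2) = d.centralBinom := Nat.mul_div_cancel' h
  have h3 : (2 : ℤ) * ((d.centralBinom / 2 : ℕ) : ℤ) = d.centralBinom := by exact_mod_cast h2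
  unfold bb
  rw [← h3]; ring

lemma dvd_of_pow_dvd_two_mul {p : ℕ} (hp : p.Prime) (hp2 : p ≠ 2) {n : ℕ} {x : ℤ}
    (h : (p : ℤ) ^ n ∣ 2 * x) : (p : ℤ) ^ n ∣ x := by
  have hcop : IsCoprime ((p : ℤ) ^ n) 2 := by
    apply IsCoprime.pow_left
    rw [Prime.coprime_iff_not_dvd (Nat.prime_iff_prime_int.mp hp)]
    intro h
    have h4 : p ∣ 2 := by exact_mod_cast h
    exact hp2 ((Nat.prime_dvd_prime_iff_eq hp Nat.prime_two).mp h4)
  exact hcop.dvd_of_dvd_mul_left h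

lemma neg_one_pow_odd_mul {p : ℕ} (hp : Odd p) (m : ℕ) : ((-1 : ℤ)) ^ (p * m) = (-1) ^ m := by
  rw [pow_mul, Odd.neg_one_pow hp]

/-- 2-adic congruence for `b` -/
lemma bb_two {m e : ℕ} (hm : 0 < m) (he : 2 ^ e ∣ m) (h2 : 2 ≤ m ∨ e = 0) :
    ((2 : ℤ) ^ (2 * e + 2)) ∣ bb (2 * m) - bb m ∧ (2 ≤ m → (2 : ℤ) ^ (2 * e + 3) ∣ bb (2 * m) - bb m) := by
  have h1 : 2 * (bb (2 * m) - bb m) = (2 * m).centralBinom - (-1) ^ m * m.centralBinom := by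
    rw [mul_sub, two_bb (by omega), two_bb hm, pow_mul]; norm_num
  rcases Nat.even_or_odd m with hev | hodd
  · have h3 := central_even hev hm he
    rw [hev.neg_one_pow, one_mul] at h1
    rw [← h1] at h3
    have h4 : (2 : ℤ) ^ (2 * e + 3) ∣ bb (2 * m) - bb m := by
      have : (2 : ℤ) ^ (2 * e + 4) = 2 * 2 ^ (2 * e + 3) := by ring
      rw [this] at h3
      exact (mul_dvd_mul_iff_left (by norm_num)).mp h3
    exact ⟨(pow_dvd_pow 2 (by omega)).trans h4, fun _ => h4⟩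
  · have he0 : e = 0 := by
      rcases Nat.eq_zero_or_pos e with h | h
      · exact h
      · exfalso
        have : 2 ∣ m := (dvd_pow_self 2 h.ne').trans he
        exact (Nat.not_even_iff_odd.mpr hodd) (even_iff_two_dvd.mpr this)
    subst he0
    rw [hodd.neg_one_pow] at h1
    have h1' : 2 * (bb (2 * m) - bb m) = (2 * m).centralBinom + m.centralBinom := by
      rw [h1]; ring
    constructor
    · have h3 := central_odd_two hodd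
      rw [← h1'] at h3
      have : (2 : ℤ) ^ 3 = 2 * 2 ^ (2 * 0 + 2) := by norm_num
      rw [this] at h3
      exact (mul_dvd_mul_iff_left (by norm_num)).mp h3
    · intro hm2
      have hm3 : 3 ≤ m := by
        obtain ⟨t, ht⟩ := hodd
        omega
      have h3 := central_odd_two' hodd hm3
      rw [← h1'] at h3
      have : (2 : ℤ) ^ 4 = 2 * 2 ^ (2 * 0 + 3) := by norm_num
      rw [this] at h3
      exact (mul_dvd_mul_iff_left (by norm_num)).mp h3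

lemma bb_dwork : ∀ p m r : ℕ, p.Prime → 0 < m → p ^ r ∣ p * m →
    ((p : ℤ) ^ (2 * r)) ∣ bb (p * m) - bb m := by
  intro p m r hp hm hr
  rcases eq_or_ne p 2 with rfl | hp2
  · rcases Nat.eq_zero_or_pos r with h0 | h0
    · subst h0; simp
    obtain ⟨s, rfl⟩ : ∃ s, r = s + 1 := ⟨r - 1, by omega⟩
    have h1 : 2 ^ s ∣ m := by
      rw [pow_succ, mul_comm] at hr
      exact Nat.dvd_of_mul_dvd_mul_left (by norm_num) hr
    have h2 : 2 ≤ m ∨ s = 0 := by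
      rcases Nat.eq_zero_or_pos s with h | h
      · right; exact h
      · left
        have : 2 ∣ m := (dvd_pow_self 2 h.ne').trans h1
        exact Nat.le_of_dvd hm this
    have := (bb_two hm h1 h2).1
    have e : 2 * (s + 1) = 2 * s + 2 := by ring
    rw [e]
    exact_mod_cast this
  · apply dvd_of_pow_dvd_two_mul hp hp2
    have hodd : Odd p := hp.odd_of_ne_two hp2
    have h1 : 2 * (bb (p * m) - bb m) = (-1) ^ m * (((p * m).centralBinom : ℤ) - m.centralBinom) := by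
      rw [mul_sub, two_bb (Nat.mul_pos hp.pos hm), two_bb hm, neg_one_pow_odd_mul hodd]; ring
    rw [h1]
    exact (central_odd hp hp2 m r hr).mul_left _

lemma pow_dwork (a : ℤ) : ∀ p m r : ℕ, p.Prime → 0 < m → p ^ r ∣ p * m →
    ((p : ℤ) ^ (1 * r)) ∣ a ^ (p * m) - a ^ m := by
  intro p m r hp hm hr
  rw [one_mul]
  rcases Nat.eq_zero_or_pos r with h0 | h0
  · subst h0; simp
  obtain ⟨s, rfl⟩ : ∃ s, r = s + 1 := ⟨r - 1, by omega⟩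
  have h1 : p ^ s ∣ m := by
    rw [pow_succ, mul_comm] at hr
    exact Nat.dvd_of_mul_dvd_mul_left hp.pos hr
  obtain ⟨t, rfl⟩ := h1
  haveI := Fact.mk hp
  have h2 : (p : ℤ) ∣ (a ^ t) ^ p - a ^ t := by
    rw [← ZMod.intCast_zmod_eq_zero_iff_dvd]
    push_cast
    rw [ZMod.pow_card, sub_self]
  have h3 := dvd_sub_pow_of_dvd_sub h2 s
  have e1 : a ^ (p * (p ^ s * t)) = ((a ^ t) ^ p) ^ p ^ s := by
    rw [← pow_mul, ← pow_mul]; congr 1; ring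
  have e2 : a ^ (p ^ s * t) = (a ^ t) ^ p ^ s := by
    rw [← pow_mul]; congr 1; ring
  rw [e1, e2]
  exact_mod_cast h3

/-! ### steps -/

/-- `V(d) = ∑_{a ∣ d} n(a)` -/
def VV (n : ℕ → ℤ) (d : ℕ) : ℤ := ∑ a ∈ d.divisors, n a
/-- `N(d) = ∑_{a ∣ d} (d/a) G(a)` -/
def NN (G : ℕ → ℤ) (d : ℕ) : ℤ := ∑ a ∈ d.divisors, ((d / a : ℕ) : ℤ) * G a

lemma sdiff_prop {p m a r : ℕ} (hp : p.Prime) (hm : 0 < m) (hr : p ^ r ∣ p * m)
    (ha : a ∈ (p * m).divisors \ m.divisors) :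
    p ^ r ∣ a ∧ ¬ p ∣ (p * m) / a ∧ a ∣ p * m := by
  rw [Finset.mem_sdiff, Nat.mem_divisors, Nat.mem_divisors] at ha
  have h11 : ¬ a * p ∣ p * m := by
    intro h
    apply ha.2
    refine ⟨?_, hm.ne'⟩
    rw [mul_comm p m] at h
    exact Nat.dvd_of_mul_dvd_mul_right hp.pos h
  have h12 := ord_dvd_of_not_dvd_div hp (Nat.mul_pos hp.pos hm) hr ha.1.1 h11
  exact ⟨h12.1, h12.2, ha.1.1⟩

lemma divisors_sub {p m : ℕ} (hp : 0 < p) (hm : 0 < m) : m.divisors ⊆ (p * m).divisors :=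
  Nat.divisors_subset_of_dvd (Nat.mul_pos hp hm).ne' (Dvd.intro_left p rfl)

lemma stepV {p q : ℕ} (hp : p.Prime) (hq : ∀ x : ℤ, ¬ (p : ℤ) ∣ x → (q : ℤ) ∣ x ^ 2 - 1)
    {n b : ℕ → ℤ} (hn : ∀ d : ℕ, 0 < d → ∑ a ∈ d.divisors, (a : ℤ) ^ 2 * n a = b d)
    {m r : ℕ} (hm : 0 < m) (hr : p ^ r ∣ p * m) :
    (q : ℤ) * p ^ (2 * r) ∣ ((p * m : ℕ) : ℤ) ^ 2 * (VV n (p * m) - VV n m) - (b (p * m) - b m) := by
  have hsub := divisors_sub hp.pos hm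
  have e1 : VV n (p * m) - VV n m = ∑ a ∈ (p * m).divisors \ m.divisors, n a := by
    unfold VV
    rw [← Finset.sum_sdiff hsub]; ring
  have e2 : b (p * m) - b m = ∑ a ∈ (p * m).divisors \ m.divisors, (a : ℤ) ^ 2 * n a := by
    rw [← hn _ (Nat.mul_pos hp.pos hm), ← hn _ hm, ← Finset.sum_sdiff hsub]; ring
  rw [e1, e2, Finset.mul_sum, ← Finset.sum_sub_distrib]
  apply Finset.dvd_sum
  intro a ha
  obtain ⟨h1, h2, h3⟩ := sdiff_prop hp hm hr ha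
  obtain ⟨c, hc⟩ := h3
  have ha0 : 0 < a := Nat.pos_of_ne_zero (by
    rintro rfl; simp at hc; have := hp.pos; omega)
  have h4 : (p * m) / a = c := by rw [hc, Nat.mul_div_cancel_left _ ha0]
  rw [h4] at h2
  have h5 : ¬ (p : ℤ) ∣ (c : ℤ) := by exact_mod_cast h2
  obtain ⟨u, hu⟩ := hq c h5
  obtain ⟨v, hv⟩ := h1
  have e3 : ((p * m : ℕ) : ℤ) ^ 2 * n a - (a : ℤ) ^ 2 * n a = (a : ℤ) ^ 2 * ((c : ℤ) ^ 2 - 1) * n a := by
    rw [hc]; push_cast; ring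
  rw [e3, hu]
  have e4 : (a : ℤ) = p ^ r * v := by rw [hv]; push_cast; ring
  rw [e4]
  exact ⟨v ^ 2 * u * n a, by ring⟩

lemma stepV0 {p q : ℕ} (hq : ∀ x : ℤ, ¬ (p : ℤ) ∣ x → (q : ℤ) ∣ x ^ 2 - 1)
    {n b : ℕ → ℤ} (hn : ∀ d : ℕ, 0 < d → ∑ a ∈ d.divisors, (a : ℤ) ^ 2 * n a = b d)
    {d : ℕ} (hd : 0 < d) (hpd : ¬ p ∣ d) : (q : ℤ) ∣ (d : ℤ) ^ 2 * VV n d - b d := by
  unfold VV
  rw [← hn d hd, Finset.mul_sum, ← Finset.sum_sub_distrib]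
  apply Finset.dvd_sum
  intro a ha
  obtain ⟨c, hc⟩ := Nat.dvd_of_mem_divisors ha
  have h5 : ¬ (p : ℤ) ∣ (c : ℤ) := by
    intro h
    apply hpd
    have h' : p ∣ c := by exact_mod_cast h
    rw [hc]; exact h'.mul_left a
  obtain ⟨u, hu⟩ := hq c h5
  have e3 : (d : ℤ) ^ 2 * n a - (a : ℤ) ^ 2 * n a = (a : ℤ) ^ 2 * ((c : ℤ) ^ 2 - 1) * n a := by
    have : (d : ℤ) = a * c := by exact_mod_cast hc
    rw [this]; ring
  rw [e3, hu]
  exact ⟨(a : ℤ) ^ 2 * u * n a, by ring⟩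

lemma stepN {p q : ℕ} (hp : p.Prime) (hq : ∀ x : ℤ, ¬ (p : ℤ) ∣ x → (q : ℤ) ∣ x ^ 2 - 1)
    {G g : ℕ → ℤ} (hG : ∀ d : ℕ, 0 < d → ∑ a ∈ d.divisors, (a : ℤ) * G a = g d)
    {m r : ℕ} (hm : 0 < m) (hr : p ^ r ∣ p * m) :
    (q : ℤ) * p ^ r ∣ ((p * m : ℕ) : ℤ) * (NN G (p * m) - p * NN G m) - (g (p * m) - g m) := by
  have hsub := divisors_sub hp.pos hm
  have e1 : NN G (p * m) - p * NN G m =
      ∑ a ∈ (p * m).divisors \ m.divisors, (((p * m) / a : ℕ) : ℤ) * G a := by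
    unfold NN
    rw [← Finset.sum_sdiff hsub, Finset.mul_sum]
    have : ∑ a ∈ m.divisors, (((p * m) / a : ℕ) : ℤ) * G a =
        ∑ a ∈ m.divisors, (p : ℤ) * (((m / a : ℕ) : ℤ) * G a) := by
      apply Finset.sum_congr rfl
      intro a ha
      rw [Nat.mul_div_assoc _ (Nat.dvd_of_mem_divisors ha)]
      push_cast; ring
    rw [this]; ring
  have e2 : g (p * m) - g m = ∑ a ∈ (p * m).divisors \ m.divisors, (a : ℤ) * G a := by
    rw [← hG _ (Nat.mul_pos hp.pos hm), ← hG _ hm, ← Finset.sum_sdiff hsub]; ring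
  rw [e1, e2, Finset.mul_sum, ← Finset.sum_sub_distrib]
  apply Finset.dvd_sum
  intro a ha
  obtain ⟨h1, h2, h3⟩ := sdiff_prop hp hm hr ha
  obtain ⟨c, hc⟩ := h3
  have ha0 : 0 < a := Nat.pos_of_ne_zero (by
    rintro rfl; simp at hc; have := hp.pos; omega)
  have h4 : (p * m) / a = c := by rw [hc, Nat.mul_div_cancel_left _ ha0]
  rw [h4] at h2
  have h5 : ¬ (p : ℤ) ∣ (c : ℤ) := by exact_mod_cast h2
  obtain ⟨u, hu⟩ := hq c h5
  obtain ⟨v, hv⟩ := h1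
  have e3 : ((p * m : ℕ) : ℤ) * (((p * m / a : ℕ) : ℤ) * G a) - (a : ℤ) * G a =
      (a : ℤ) * ((c : ℤ) ^ 2 - 1) * G a := by
    rw [h4, hc]; push_cast; ring
  rw [e3, hu]
  have e4 : (a : ℤ) = p ^ r * v := by rw [hv]; push_cast; ring
  rw [e4]
  exact ⟨v * u * G a, by ring⟩

lemma stepN0 {p q : ℕ} (hq : ∀ x : ℤ, ¬ (p : ℤ) ∣ x → (q : ℤ) ∣ x ^ 2 - 1)
    {G g : ℕ → ℤ} (hG : ∀ d : ℕ, 0 < d → ∑ a ∈ d.divisors, (a : ℤ) * G a = g d)
    {d : ℕ} (hd : 0 < d) (hpd : ¬ p ∣ d) : (q : ℤ) ∣ (d : ℤ) * NN G d - g d := by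
  unfold NN
  rw [← hG d hd, Finset.mul_sum, ← Finset.sum_sub_distrib]
  apply Finset.dvd_sum
  intro a ha
  obtain ⟨c, hc⟩ := Nat.dvd_of_mem_divisors ha
  have ha0 : 0 < a := Nat.pos_of_mem_divisors ha
  have h4 : d / a = c := by rw [hc, Nat.mul_div_cancel_left _ ha0]
  have h5 : ¬ (p : ℤ) ∣ (c : ℤ) := by
    intro h
    apply hpd
    have h' : p ∣ c := by exact_mod_cast h
    rw [hc]; exact h'.mul_left a
  obtain ⟨u, hu⟩ := hq c h5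
  have e3 : (d : ℤ) * (((d / a : ℕ) : ℤ) * G a) - (a : ℤ) * G a = (a : ℤ) * ((c : ℤ) ^ 2 - 1) * G a := by
    have : (d : ℤ) = a * c := by exact_mod_cast hc
    rw [h4, this]; ring
  rw [e3, hu]
  exact ⟨(a : ℤ) * u * G a, by ring⟩

lemma q8 : ∀ x : ℤ, ¬ ((2 : ℕ) : ℤ) ∣ x → ((8 : ℕ) : ℤ) ∣ x ^ 2 - 1 := by
  intro x hx
  have h1 : x % 2 = 1 := by push_cast at hx; omega
  obtain ⟨y, rfl⟩ : ∃ y, x = 2 * y + 1 := ⟨x / 2, by omega⟩
  have h2 : (2 * y + 1) ^ 2 - 1 = 4 * (y * (y + 1)) := by ring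
  rw [h2]
  obtain ⟨c, hc⟩ := Int.even_mul_succ_self y
  rw [hc]
  exact ⟨c, by push_cast; ring⟩

lemma q3 : ∀ x : ℤ, ¬ ((3 : ℕ) : ℤ) ∣ x → ((3 : ℕ) : ℤ) ∣ x ^ 2 - 1 := by
  intro x hx
  exact_mod_cast three_dvd_sq_sub_one (by exact_mod_cast hx)

end MPa4e0fb
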