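import Pool.Agent.Lib.MP_a4e0fb_ag.H72LocalP2

open Finset

namespace MPa4e0fb

lemma central_conv (n : ℕ) :
    ∑ x ∈ antidiagonal n, (x.1.centralBinom : ℤ) * x.2.centralBinom = 4 ^ n := by
  have hT : ∀ n : ℕ, 2 * ∑ x ∈ antidiagonal n, (x.1 : ℤ) * (x.1.centralBinom * x.2.centralBinom) =
      n * ∑ x ∈ antidiagonal n, (x.1.centralBinom : ℤ) * x.2.centralBinom := by
    intro n
    have h1 : ∑ x ∈ antidiagonal n, (x.1 : ℤ) * (x.1.centralBinom * x.2.centralBinom) =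
        ∑ x ∈ antidiagonal n, (x.2 : ℤ) * (x.1.centralBinom * x.2.centralBinom) := by
      rw [← Finset.Nat.sum_antidiagonal_swap]
      apply Finset.sum_congr rfl
      intro x _
      simp only [Prod.fst_swap, Prod.snd_swap]
      ring
    rw [two_mul]
    nth_rewrite 2 [h1]
    rw [← Finset.sum_add_distrib, Finset.mul_sum]
    apply Finset.sum_congr rfl
    intro x hx
    rw [HasAntidiagonal.mem_antidiagonal] at hx
    rw [← hx]
    push_cast
    ring
  induction n with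
  | zero => simp
  | succ n ih =>
    have h1 : ∑ x ∈ antidiagonal (n + 1), (x.1 : ℤ) * (x.1.centralBinom * x.2.centralBinom) =
        ∑ x ∈ antidiagonal n, (2 * (2 * (x.1 : ℤ) + 1)) * (x.1.centralBinom * x.2.centralBinom) := by
      rw [Finset.Nat.sum_antidiagonal_succ]
      simp only [Nat.cast_zero, zero_mul, zero_add]
      apply Finset.sum_congr rfl
      intro x _
      have := Nat.succ_mul_centralBinom_succ x.1
      have h2 : ((x.1 : ℤ) + 1) * (x.1 + 1).centralBinom = 2 * (2 * x.1 + 1) * x.1.centralBinom := by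
        exact_mod_cast this
      push_cast
      rw [← mul_assoc, h2]
      ring
    have h2 : ∑ x ∈ antidiagonal n, (2 * (2 * (x.1 : ℤ) + 1)) * (x.1.centralBinom * x.2.centralBinom) =
        4 * ∑ x ∈ antidiagonal n, (x.1 : ℤ) * (x.1.centralBinom * x.2.centralBinom) +
        2 * ∑ x ∈ antidiagonal n, (x.1.centralBinom : ℤ) * x.2.centralBinom := by
      rw [Finset.mul_sum, Finset.mul_sum, ← Finset.sum_add_distrib]
      apply Finset.sum_congr rfl
      intro x _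
      ring
    have h3 := hT (n + 1)
    have h4 := hT n
    rw [h1, h2, ih] at h3
    rw [ih] at h4
    have h5 : (0 : ℤ) < (n : ℤ) + 1 := by positivity
    have h6 : ((n : ℤ) + 1) * ∑ x ∈ antidiagonal (n + 1), (x.1.centralBinom : ℤ) * x.2.centralBinom =
        ((n : ℤ) + 1) * 4 ^ (n + 1) := by
      push_cast at h3
      rw [← h3, pow_succ]
      linarith
    exact mul_left_cancel₀ h5.ne' h6

/-- `β(k) = (-1)^k C(2k,k)` -/
def bt (k : ℕ) : ℤ := (-1) ^ k * (k.centralBinom : ℤ)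

lemma bt_conv (n : ℕ) : ∑ x ∈ antidiagonal n, bt x.1 * bt x.2 = (-4) ^ n := by
  have h1 : ∑ x ∈ antidiagonal n, bt x.1 * bt x.2 =
      (-1) ^ n * ∑ x ∈ antidiagonal n, (x.1.centralBinom : ℤ) * x.2.centralBinom := by
    rw [Finset.mul_sum]
    apply Finset.sum_congr rfl
    intro x hx
    rw [HasAntidiagonal.mem_antidiagonal] at hx
    unfold bt
    rw [← hx, pow_add]
    ring
  rw [h1, central_conv, ← mul_pow]
  norm_num

lemma central_mod3_0 (k : ℕ) : ((3 * k).centralBinom : ℤ) ≡ k.centralBinom [ZMOD 3] := by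
  have h := @Choose.choose_modEq_choose_mod_mul_choose_div_nat (2 * (3 * k)) (3 * k) 3 ⟨Nat.prime_three⟩
  rw [show 2 * (3 * k) % 3 = 0 by omega, show 3 * k % 3 = 0 by omega,
    show 2 * (3 * k) / 3 = 2 * k by omega, show 3 * k / 3 = k by omega] at h
  rw [Nat.centralBinom_eq_two_mul_choose, Nat.centralBinom_eq_two_mul_choose]
  have h' := (Int.natCast_modEq_iff).mpr h
  simpa using h'

lemma central_mod3_1 (k : ℕ) : ((3 * k + 1).centralBinom : ℤ) ≡ 2 * k.centralBinom [ZMOD 3] := by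
  have h := @Choose.choose_modEq_choose_mod_mul_choose_div_nat (2 * (3 * k + 1)) (3 * k + 1) 3
    ⟨Nat.prime_three⟩
  rw [show 2 * (3 * k + 1) % 3 = 2 by omega, show (3 * k + 1) % 3 = 1 by omega,
    show 2 * (3 * k + 1) / 3 = 2 * k by omega, show (3 * k + 1) / 3 = k by omega] at h
  rw [Nat.centralBinom_eq_two_mul_choose, Nat.centralBinom_eq_two_mul_choose]
  have h' := (Int.natCast_modEq_iff).mpr h
  simpa using h'

lemma central_mod3_2 (k : ℕ) : ((3 * k + 2).centralBinom : ℤ) ≡ 0 [ZMOD 3] := by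
  have h := @Choose.choose_modEq_choose_mod_mul_choose_div_nat (2 * (3 * k + 2)) (3 * k + 2) 3
    ⟨Nat.prime_three⟩
  rw [show 2 * (3 * k + 2) % 3 = 1 by omega, show (3 * k + 2) % 3 = 2 by omega,
    show 2 * (3 * k + 2) / 3 = 2 * k + 1 by omega, show (3 * k + 2) / 3 = k by omega] at h
  rw [Nat.centralBinom_eq_two_mul_choose]
  have h' := (Int.natCast_modEq_iff).mpr h
  simpa using h'

lemma bt_0 (k : ℕ) : bt (3 * k) ≡ bt k [ZMOD 3] := by
  unfold bt
  rw [neg_one_pow_odd_mul (by decide)]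
  exact (central_mod3_0 k).mul_left _

lemma bt_1 (k : ℕ) : bt (3 * k + 1) ≡ bt k [ZMOD 3] := by
  unfold bt
  rw [pow_succ, neg_one_pow_odd_mul (by decide)]
  have := (central_mod3_1 k).mul_left ((-1) ^ k * -1)
  refine this.trans ?_
  rw [Int.modEq_iff_dvd]
  exact ⟨(-1) ^ k * k.centralBinom, by ring⟩

lemma bt_2 (k : ℕ) : bt (3 * k + 2) ≡ 0 [ZMOD 3] := by
  unfold bt
  have := (central_mod3_2 k).mul_left ((-1) ^ (3 * k + 2))
  simpa using this

lemma two_bb' {d : ℕ} (hd : 0 < d) : 2 * bb d = bt d := two_bb hd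

/-- `b(d) ≡ -β(d) (mod 3)` -/
lemma bb_mod3 {d : ℕ} (hd : 0 < d) : bb d ≡ -bt d [ZMOD 3] := by
  rw [← two_bb' hd, Int.modEq_iff_dvd]
  exact ⟨-bb d, by ring⟩

section main
variable {n G : ℕ → ℤ} (hn : ∀ d : ℕ, 0 < d → ∑ a ∈ d.divisors, (a : ℤ) ^ 2 * n a = bb d)
  (hG : ∀ d : ℕ, 0 < d → ∑ a ∈ d.divisors, (a : ℤ) * G a = (-4) ^ d)

/-- decomposition `m = p^v w` with `p ∤ w` -/
lemma exists_ord {p m : ℕ} (hp : p.Prime) (hm : 0 < m) : ∃ v w : ℕ, m = p ^ v * w ∧ ¬ p ∣ w := by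
  obtain ⟨v, w, hw, h⟩ := Nat.exists_eq_pow_mul_and_not_dvd hm.ne' p hp.ne_one
  exact ⟨v, w, h, hw⟩

include hn

/-! #### the prime 3 -/

lemma V_step3 {m : ℕ} (hm : 0 < m) : VV n (3 * m) ≡ VV n m + m * bb m [ZMOD 3] := by
  obtain ⟨v, w, hv, hw⟩ := exists_ord Nat.prime_three hm
  have hw' : ¬ (3 : ℤ) ∣ w := by exact_mod_cast hw
  have h1 := stepV (q := 3) Nat.prime_three q3 hn hm (r := v + 1) (by rw [hv, pow_succ]; exact ⟨w, by ring⟩)
  have h2 := central_three m v w hv hw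
  have h3 : 2 * (bb (3 * m) - bb m - 9 * m ^ 3 * bb m) =
      (-1) ^ m * (((3 * m).centralBinom : ℤ) - m.centralBinom - 9 * m ^ 3 * m.centralBinom) := by
    have e1 := two_bb (d := 3 * m) (by omega)
    have e2 := two_bb hm
    rw [neg_one_pow_odd_mul (by decide)] at e1
    linear_combination e1 - (1 + 9 * (m : ℤ) ^ 3) * e2
  have h4 : (3 : ℤ) ^ (2 * v + 3) ∣ bb (3 * m) - bb m - 9 * m ^ 3 * bb m := by
    have : ((3 : ℕ) : ℤ) ^ (2 * v + 3) ∣ 2 * (bb (3 * m) - bb m - 9 * m ^ 3 * bb m) := by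
      rw [h3]; push_cast; exact h2.mul_left _
    have := dvd_of_pow_dvd_two_mul Nat.prime_three (by norm_num) this
    exact_mod_cast this
  have h5 : (3 : ℤ) ^ (2 * v + 3) ∣
      ((3 * m : ℕ) : ℤ) ^ 2 * (VV n (3 * m) - VV n m - m * bb m) := by
    have h1' : (3 : ℤ) ^ (2 * v + 3) ∣
        ((3 * m : ℕ) : ℤ) ^ 2 * (VV n (3 * m) - VV n m) - (bb (3 * m) - bb m) := by
      have e : ((3 : ℕ) : ℤ) * ((3 : ℕ) : ℤ) ^ (2 * (v + 1)) = (3 : ℤ) ^ (2 * v + 3) := by
        push_cast; ring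
      rw [← e]; exact h1
    have h9 := dvd_add h1' h4
    have e9 : ((3 * m : ℕ) : ℤ) ^ 2 * (VV n (3 * m) - VV n m) - (bb (3 * m) - bb m) +
        (bb (3 * m) - bb m - 9 * m ^ 3 * bb m) =
        ((3 * m : ℕ) : ℤ) ^ 2 * (VV n (3 * m) - VV n m - m * bb m) := by
      push_cast; ring
    rwa [e9] at h9
  have e6 : ((3 * m : ℕ) : ℤ) ^ 2 = 3 ^ (2 * v + 2) * (w : ℤ) ^ 2 := by
    rw [hv]; push_cast; ring
  rw [e6, mul_assoc, show (3 : ℤ) ^ (2 * v + 3) = 3 ^ (2 * v + 2) * 3 by ring] at h5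
  have h7 := (mul_dvd_mul_iff_left (by positivity)).mp h5
  have h8 : (3 : ℤ) ∣ VV n (3 * m) - VV n m - m * bb m := by
    rcases Int.Prime.dvd_mul' Nat.prime_three h7 with h | h
    · exfalso
      exact hw' (Int.Prime.dvd_pow' Nat.prime_three h)
    · exact h
  rw [Int.modEq_iff_dvd]
  have h9 := (dvd_neg (α := ℤ)).mpr h8
  have e9 : -(VV n (3 * m) - VV n m - m * bb m) = VV n m + m * bb m - VV n (3 * m) := by ring
  rwa [e9] at h9

lemma V_mod3_prime {d : ℕ} (hd : 0 < d) (h3 : ¬ 3 ∣ d) : VV n d ≡ -bt d [ZMOD 3] := by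
  have h1 := stepV0 (q := 3) q3 hn hd h3
  have h2 := three_dvd_sq_sub_one (x := d) (by exact_mod_cast h3)
  have h4 : VV n d ≡ bb d [ZMOD 3] := by
    rw [Int.modEq_iff_dvd]
    have h5 : (3 : ℤ) ∣ ((d : ℤ) ^ 2 - 1) * VV n d - ((d : ℤ) ^ 2 * VV n d - bb d) :=
      dvd_sub (h2.mul_right _) (by exact_mod_cast h1)
    have e5 : ((d : ℤ) ^ 2 - 1) * VV n d - ((d : ℤ) ^ 2 * VV n d - bb d) = bb d - VV n d := by ring
    rwa [e5] at h5
  exact h4.trans (bb_mod3 hd)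

lemma V_mod3_1 (k : ℕ) : VV n (3 * k + 1) ≡ -bt k [ZMOD 3] :=
  (V_mod3_prime hn (by omega) (by omega)).trans (bt_1 k).neg

lemma V_mod3_2 (k : ℕ) : VV n (3 * k + 2) ≡ 0 [ZMOD 3] := by
  have := (V_mod3_prime hn (d := 3 * k + 2) (by omega) (by omega)).trans (bt_2 k).neg
  simpa using this

lemma V_mod3_0 (k : ℕ) (hk : 0 < k) : VV n (3 * k) ≡ bt k [ZMOD 3] := by
  induction k using Nat.strong_induction_on with
  | _ k ih =>
    have h1 := V_step3 hn hk
    have hcase : k % 3 = 0 ∨ k % 3 = 1 ∨ k % 3 = 2 := by omega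
    rcases hcase with h | h | h
    · obtain ⟨j, rfl⟩ : ∃ j, k = 3 * j := ⟨k / 3, by omega⟩
      have h2 := ih j (by omega) (by omega)
      refine h1.trans ?_
      have h3 : ((3 * j : ℕ) : ℤ) * bb (3 * j) ≡ 0 [ZMOD 3] := by
        rw [Int.modEq_zero_iff_dvd]
        exact ⟨j * bb (3 * j), by push_cast; ring⟩
      have h4 := h2.add h3
      rw [add_zero] at h4
      exact h4.trans (bt_0 j).symm
    · obtain ⟨j, rfl⟩ : ∃ j, k = 3 * j + 1 := ⟨k / 3, by omega⟩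
      refine h1.trans ?_
      have h2 := V_mod3_1 hn j
      have h3 : ((3 * j + 1 : ℕ) : ℤ) * bb (3 * j + 1) ≡ 1 * -bt j [ZMOD 3] := by
        apply Int.ModEq.mul
        · rw [Int.modEq_iff_dvd]; exact ⟨-j, by push_cast; ring⟩
        · exact (bb_mod3 (by omega)).trans (bt_1 j).neg
      refine (h2.add h3).trans ?_
      refine Int.ModEq.trans ?_ (bt_1 j).symm
      rw [Int.modEq_iff_dvd]
      exact ⟨bt j, by ring⟩
    · obtain ⟨j, rfl⟩ : ∃ j, k = 3 * j + 2 := ⟨k / 3, by omega⟩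
      refine h1.trans ?_
      have h2 := V_mod3_2 hn j
      have h3 : ((3 * j + 2 : ℕ) : ℤ) * bb (3 * j + 2) ≡ ((3 * j + 2 : ℕ) : ℤ) * -0 [ZMOD 3] :=
        ((bb_mod3 (by omega)).trans (bt_2 j).neg).mul_left _
      refine (h2.add h3).trans ?_
      simpa using (bt_2 j).symm

end main

end MPa4e0fb
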