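import Pool.Agent.Lib.MP_a4e0fb_ag.H72LocalP2b

open Finset

namespace MPa4e0fb

/-- the model of `V` modulo 3 -/
def ss (i : ℕ) : ℤ := if i % 3 = 0 then bt (i / 3) else if i % 3 = 1 then -bt (i / 3) else 0

lemma ss_0 (k : ℕ) : ss (3 * k) = bt k := by
  unfold ss
  rw [if_pos (by omega), show 3 * k / 3 = k by omega]

lemma ss_1 (k : ℕ) : ss (3 * k + 1) = -bt k := by
  unfold ss
  rw [if_neg (by omega), if_pos (by omega), show (3 * k + 1) / 3 = k by omega]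

lemma ss_2 (k : ℕ) : ss (3 * k + 2) = 0 := by
  unfold ss
  rw [if_neg (by omega), if_neg (by omega)]

lemma range_three (F : ℕ → ℤ) (K : ℕ) :
    ∑ i ∈ range (3 * K), F i = ∑ a ∈ range K, (F (3 * a) + F (3 * a + 1) + F (3 * a + 2)) := by
  induction K with
  | zero => simp
  | succ K ih =>
    rw [show 3 * (K + 1) = 3 * K + 1 + 1 + 1 by ring, Finset.sum_range_succ, Finset.sum_range_succ,
      Finset.sum_range_succ, ih, Finset.sum_range_succ]
    ring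

lemma bt_conv' (k : ℕ) : ∑ a ∈ range (k + 1), bt a * bt (k - a) = (-4) ^ k := by
  rw [← bt_conv k, Finset.Nat.sum_antidiagonal_eq_sum_range_succ_mk]

lemma ss_conv_0 (k : ℕ) : ∑ x ∈ antidiagonal (3 * k), ss x.1 * ss x.2 = (-4) ^ k := by
  rw [Finset.Nat.sum_antidiagonal_eq_sum_range_succ_mk, Finset.sum_range_succ, range_three,
    ← bt_conv' k, Finset.sum_range_succ]
  congr 1
  · apply Finset.sum_congr rfl
    intro a ha
    rw [mem_range] at ha
    rw [ss_0, ss_1, ss_2, show 3 * k - 3 * a = 3 * (k - a) by omega, ss_0,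
      show 3 * k - (3 * a + 1) = 3 * (k - a - 1) + 2 by omega, ss_2]
    ring
  · rw [ss_0, Nat.sub_self, Nat.sub_self]
    have : ss 0 = bt 0 := ss_0 0
    rw [this]

lemma ss_conv_1 (k : ℕ) : ∑ x ∈ antidiagonal (3 * k + 1), ss x.1 * ss x.2 = -2 * (-4) ^ k := by
  have h0 : ∑ i ∈ range (3 * (k + 1)), ss i * ss (3 * k + 1 - i) =
      ∑ i ∈ range (3 * k + 1 + 1), ss i * ss (3 * k + 1 - i) := by
    rw [show 3 * (k + 1) = 3 * k + 1 + 1 + 1 by ring, Finset.sum_range_succ,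
      show 3 * k + 1 + 1 = 3 * k + 2 by ring, ss_2]
    ring
  rw [Finset.Nat.sum_antidiagonal_eq_sum_range_succ_mk]
  simp only
  rw [← h0, range_three, ← bt_conv' k, Finset.mul_sum]
  apply Finset.sum_congr rfl
  intro a ha
  rw [mem_range] at ha
  rw [ss_0, ss_1, ss_2, show 3 * k + 1 - 3 * a = 3 * (k - a) + 1 by omega, ss_1,
    show 3 * k + 1 - (3 * a + 1) = 3 * (k - a) by omega, ss_0]
  ring

lemma ss_conv_2 (k : ℕ) : ∑ x ∈ antidiagonal (3 * k + 2), ss x.1 * ss x.2 = (-4) ^ k := by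
  rw [Finset.Nat.sum_antidiagonal_eq_sum_range_succ_mk]
  simp only
  rw [show (3 * k + 2).succ = 3 * (k + 1) by omega, range_three, ← bt_conv' k]
  apply Finset.sum_congr rfl
  intro a ha
  rw [mem_range] at ha
  rw [ss_0, ss_1, ss_2, show 3 * k + 2 - 3 * a = 3 * (k - a) + 2 by omega, ss_2,
    show 3 * k + 2 - (3 * a + 1) = 3 * (k - a) + 1 by omega, ss_1]
  ring

lemma ss_conv_mod (d : ℕ) :
    ((∑ x ∈ antidiagonal d, ss x.1 * ss x.2 : ℤ) : ZMod 3) = (-1) ^ (d / 3) := by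
  have hc : ((-4 : ℤ) : ZMod 3) = -1 := by decide
  have h2 : ((-2 : ℤ) : ZMod 3) = 1 := by decide
  have hcase : d % 3 = 0 ∨ d % 3 = 1 ∨ d % 3 = 2 := by omega
  rcases hcase with h | h | h
  · obtain ⟨k, rfl⟩ : ∃ k, d = 3 * k := ⟨d / 3, by omega⟩
    rw [ss_conv_0, Int.cast_pow, hc, show 3 * k / 3 = k by omega]
  · obtain ⟨k, rfl⟩ : ∃ k, d = 3 * k + 1 := ⟨d / 3, by omega⟩
    rw [ss_conv_1, Int.cast_mul, Int.cast_pow, hc, h2, show (3 * k + 1) / 3 = k by omega, one_mul]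
  · obtain ⟨k, rfl⟩ : ∃ k, d = 3 * k + 2 := ⟨d / 3, by omega⟩
    rw [ss_conv_2, Int.cast_pow, hc, show (3 * k + 2) / 3 = k by omega]

section main
variable {n G : ℕ → ℤ}

lemma VV_zero (n : ℕ → ℤ) : VV n 0 = 0 := by simp [VV]

lemma V_eq_ss (hn : ∀ d : ℕ, 0 < d → ∑ a ∈ d.divisors, (a : ℤ) ^ 2 * n a = bb d) {d : ℕ}
    (hd : 0 < d) : ((VV n d : ℤ) : ZMod 3) = ss d := by
  rw [ZMod.intCast_eq_intCast_iff]
  have hcase : d % 3 = 0 ∨ d % 3 = 1 ∨ d % 3 = 2 := by omega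
  rcases hcase with h | h | h
  · obtain ⟨k, rfl⟩ : ∃ k, d = 3 * k := ⟨d / 3, by omega⟩
    rw [ss_0]; exact V_mod3_0 hn k (by omega)
  · obtain ⟨k, rfl⟩ : ∃ k, d = 3 * k + 1 := ⟨d / 3, by omega⟩
    rw [ss_1]; exact V_mod3_1 hn k
  · obtain ⟨k, rfl⟩ : ∃ k, d = 3 * k + 2 := ⟨d / 3, by omega⟩
    rw [ss_2]; exact V_mod3_2 hn k

lemma V_conv_mod3 (hn : ∀ d : ℕ, 0 < d → ∑ a ∈ d.divisors, (a : ℤ) ^ 2 * n a = bb d) {d : ℕ}
    (hd : 0 < d) : ((∑ x ∈ antidiagonal d, VV n x.1 * VV n x.2 : ℤ) : ZMod 3) =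
      (-1) ^ (d / 3) - 2 * (ss d : ZMod 3) := by
  have hs0 : (ss 0 : ZMod 3) = 1 := by
    have : ss 0 = bt 0 := ss_0 0
    rw [this]; simp [bt]
  rw [← ss_conv_mod d]
  push_cast
  have h1 : ∀ x ∈ antidiagonal d, ((VV n x.1 : ℤ) : ZMod 3) * ((VV n x.2 : ℤ) : ZMod 3) =
      (ss x.1 : ZMod 3) * (ss x.2 : ZMod 3) - (if x.1 = 0 then (ss d : ZMod 3) else 0)
      - (if x.2 = 0 then (ss d : ZMod 3) else 0) := by
    rintro ⟨i, j⟩ hx
    rw [HasAntidiagonal.mem_antidiagonal] at hx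
    simp only at hx ⊢
    rcases Nat.eq_zero_or_pos i with hi | hi
    · subst hi
      have hj : j = d := by omega
      subst hj
      rw [VV_zero, if_pos rfl, if_neg (by omega), hs0]
      push_cast; ring
    · rcases Nat.eq_zero_or_pos j with hj | hj
      · subst hj
        have hi' : i = d := by omega
        subst hi'
        rw [VV_zero, if_pos rfl, if_neg (by omega), hs0]
        push_cast; ring
      · rw [V_eq_ss hn hi, V_eq_ss hn hj, if_neg (by omega), if_neg (by omega)]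
        ring
  rw [Finset.sum_congr rfl h1, Finset.sum_sub_distrib, Finset.sum_sub_distrib]
  have h2 : ∑ x ∈ antidiagonal d, (if x.1 = 0 then (ss d : ZMod 3) else 0) = ss d := by
    rw [Finset.Nat.sum_antidiagonal_eq_sum_range_succ_mk]
    simp
  have h3 : ∑ x ∈ antidiagonal d, (if x.2 = 0 then (ss d : ZMod 3) else 0) = ss d := by
    rw [← Finset.Nat.sum_antidiagonal_swap]
    simp only [Prod.snd_swap]
    exact h2
  rw [h2, h3]
  ring

lemma N_mod3 (hG : ∀ d : ℕ, 0 < d → ∑ a ∈ d.divisors, (a : ℤ) * G a = (-4) ^ d) {d : ℕ}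
    (hd : 0 < d) : ((NN G d : ℤ) : ZMod 3) = -(-1) ^ (d / 3) := by
  have hc : ((-4 : ℤ) : ZMod 3) = -1 := by decide
  have hprime : ∀ d : ℕ, 0 < d → ¬ 3 ∣ d → ((NN G d : ℤ) : ZMod 3) = (d : ZMod 3) * (-1) ^ d := by
    intro d hd h3
    have h1 := stepN0 (q := 3) (g := fun d => (-4) ^ d) q3 hG hd h3
    have h2 := three_dvd_sq_sub_one (x := d) (by exact_mod_cast h3)
    have h1' : ((((d : ℤ) * NN G d - (-4) ^ d : ℤ)) : ZMod 3) = 0 := by
      rw [ZMod.intCast_zmod_eq_zero_iff_dvd]; exact h1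
    have h2' : ((((d : ℤ) ^ 2 - 1 : ℤ)) : ZMod 3) = 0 := by
      rw [ZMod.intCast_zmod_eq_zero_iff_dvd]; exact h2
    push_cast at h1' h2'
    rw [show (-4 : ZMod 3) = -1 by decide] at h1'
    linear_combination (d : ZMod 3) * h1' - ((NN G d : ℤ) : ZMod 3) * h2'
  have hcase : d % 3 = 0 ∨ d % 3 = 1 ∨ d % 3 = 2 := by omega
  rcases hcase with h | h | h
  · obtain ⟨k, rfl⟩ : ∃ k, d = 3 * k := ⟨d / 3, by omega⟩
    have hk : 0 < k := by omega
    rw [show 3 * k / 3 = k by omega]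
    obtain ⟨v, w, hv, hw⟩ := exists_ord Nat.prime_three hk
    have h1 := stepN (q := 3) (g := fun d => (-4) ^ d) Nat.prime_three q3 hG hk (r := v + 1)
      (by rw [hv, pow_succ]; exact ⟨w, by ring⟩)
    -- `16^k - 1 - 15 k`
    have h225 : ∀ m : ℕ, (9 : ℤ) ∣ 16 ^ m - 1 - 15 * m := by
      intro m
      induction m with
      | zero => simp
      | succ m ih =>
        obtain ⟨c, hc⟩ := ih
        refine ⟨16 * c + 25 * m, ?_⟩
        rw [pow_succ]
        push_cast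
        linarith
    have h16 : ∀ v w : ℕ, (3 : ℤ) ^ (v + 2) ∣ 16 ^ (3 ^ v * w) - 1 - 15 * (3 ^ v * w : ℕ) := by
      intro v w
      induction v with
      | zero =>
        have := h225 w
        norm_num
        push_cast
        exact_mod_cast this
      | succ v ih =>
        obtain ⟨c, hc⟩ := ih
        set y : ℤ := 16 ^ (3 ^ v * w) - 1 with hy
        have e1 : (16 : ℤ) ^ (3 ^ (v + 1) * w) - 1 = y ^ 3 + 3 * y ^ 2 + 3 * y := by
          have : (16 : ℤ) ^ (3 ^ (v + 1) * w) = (16 ^ (3 ^ v * w)) ^ 3 := by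
            rw [← pow_mul]; congr 1; ring
          rw [this, hy]; ring
        have e2 : y = 3 ^ (v + 1) * (5 * w + 3 * c) := by
          have : y = 15 * (3 ^ v * w : ℕ) + 3 ^ (v + 2) * c := by linarith
          rw [this]; push_cast; ring
        have e3 : 3 * y = 15 * (3 ^ (v + 1) * w : ℕ) + 3 ^ (v + 3) * c := by
          have : y = 15 * (3 ^ v * w : ℕ) + 3 ^ (v + 2) * c := by linarith
          rw [this]; push_cast; ring
        rw [e1, e3]
        refine ⟨3 ^ (2 * v) * (5 * w + 3 * c) ^ 3 + 3 ^ v * (5 * w + 3 * c) ^ 2 + c, ?_⟩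
        nth_rewrite 1 [e2]
        nth_rewrite 1 [e2]
        ring
    have h2 : (3 : ℤ) ^ (v + 2) ∣ (-4) ^ (3 * k) - (-4) ^ k - 15 * k * (-4) ^ k := by
      have h3 := h16 v w
      rw [← hv] at h3
      have : ((-4 : ℤ)) ^ (3 * k) - (-4) ^ k - 15 * k * (-4) ^ k = (-4) ^ k * (16 ^ k - 1 - 15 * k) := by
        rw [show (3 * k) = k + 2 * k by ring, pow_add, pow_mul]; norm_num; ring
      rw [this]
      exact h3.mul_left _
    have h4 : (3 : ℤ) ^ (v + 2) ∣ ((3 * k : ℕ) : ℤ) * (NN G (3 * k) - 3 * NN G k - 5 * (-4) ^ k) := by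
      have e : ((3 : ℕ) : ℤ) * ((3 : ℕ) : ℤ) ^ (v + 1) = (3 : ℤ) ^ (v + 2) := by
        push_cast; ring
      rw [e] at h1
      have h5 := dvd_add h1 h2
      have e9 : ((3 * k : ℕ) : ℤ) * (NN G (3 * k) - ((3 : ℕ) : ℤ) * NN G k) -
          ((-4) ^ (3 * k) - (-4) ^ k) + ((-4) ^ (3 * k) - (-4) ^ k - 15 * k * (-4) ^ k) =
          ((3 * k : ℕ) : ℤ) * (NN G (3 * k) - 3 * NN G k - 5 * (-4) ^ k) := by
        push_cast; ring
      rwa [e9] at h5
    have e6 : ((3 * k : ℕ) : ℤ) = 3 ^ (v + 1) * (w : ℤ) := by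
      rw [hv]; push_cast; ring
    rw [e6, mul_assoc, show (3 : ℤ) ^ (v + 2) = 3 ^ (v + 1) * 3 by ring] at h4
    have h7 := (mul_dvd_mul_iff_left (by positivity)).mp h4
    have hw' : ¬ (3 : ℤ) ∣ w := by exact_mod_cast hw
    have h8 : (3 : ℤ) ∣ NN G (3 * k) - 3 * NN G k - 5 * (-4) ^ k := by
      rcases Int.Prime.dvd_mul' Nat.prime_three h7 with h | h
      · exact absurd h hw'
      · exact h
    have h9 : ((NN G (3 * k) - 3 * NN G k - 5 * (-4) ^ k : ℤ) : ZMod 3) = 0 := by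
      rw [ZMod.intCast_zmod_eq_zero_iff_dvd]; exact h8
    push_cast at h9
    rw [show (-4 : ZMod 3) = -1 by decide, show (3 : ZMod 3) = 0 by decide,
      show (5 : ZMod 3) = -1 by decide] at h9
    linear_combination h9
  · obtain ⟨k, rfl⟩ : ∃ k, d = 3 * k + 1 := ⟨d / 3, by omega⟩
    rw [hprime _ hd (by omega), show (3 * k + 1) / 3 = k by omega, pow_succ, pow_mul]
    push_cast
    rw [show (3 : ZMod 3) = 0 by decide, show ((-1 : ZMod 3)) ^ 3 = -1 by decide]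
    ring
  · obtain ⟨k, rfl⟩ : ∃ k, d = 3 * k + 2 := ⟨d / 3, by omega⟩
    rw [hprime _ hd (by omega), show (3 * k + 2) / 3 = k by omega, pow_add, pow_mul]
    push_cast
    rw [show (3 : ZMod 3) = 0 by decide, show ((-1 : ZMod 3)) ^ 3 = -1 by decide,
      show (2 : ZMod 3) = -1 by decide]
    ring

lemma total_mod3 (hn : ∀ d : ℕ, 0 < d → ∑ a ∈ d.divisors, (a : ℤ) ^ 2 * n a = bb d)
    (hG : ∀ d : ℕ, 0 < d → ∑ a ∈ d.divisors, (a : ℤ) * G a = (-4) ^ d) {d : ℕ} (hd : 0 < d) :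
    (3 : ℤ) ∣ NN G d - 4 * VV n d - 2 * ∑ x ∈ antidiagonal d, VV n x.1 * VV n x.2 := by
  have h1 := N_mod3 hG hd
  have h2 := V_conv_mod3 hn hd
  have h3 := V_eq_ss hn hd
  have : ((NN G d - 4 * VV n d - 2 * ∑ x ∈ antidiagonal d, VV n x.1 * VV n x.2 : ℤ) : ZMod 3) = 0 := by
    rw [Int.cast_sub, Int.cast_sub, Int.cast_mul, Int.cast_mul, h1, h2, h3]
    push_cast
    have e3 : (3 : ZMod 3) = 0 := by decide
    linear_combination -(-1) ^ (d / 3) * e3
  rw [ZMod.intCast_zmod_eq_zero_iff_dvd] at this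
  exact_mod_cast this

end main

end MPa4e0fb
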