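import Pool.Agent.Lib.MP_a4e0fb_ag.H72LocalP2c

open Finset

namespace MPa4e0fb

section main
variable {n G : ℕ → ℤ}

lemma odd_dvd_of_two {x w : ℤ} (hw : ¬ (2 : ℤ) ∣ w) (h : (2 : ℤ) ∣ w * x) : (2 : ℤ) ∣ x :=
  (Int.Prime.dvd_mul' Nat.prime_two h).resolve_left hw

lemma bb_even_of_odd {d : ℕ} (hd : Odd d) (h3 : 3 ≤ d) : (2 : ℤ) ∣ bb d := by
  have h1 := four_dvd_central hd h3
  have h2 := two_bb (d := d) (by omega)
  have h3 : (4 : ℤ) ∣ 2 * bb d := by
    rw [h2]
    exact (show (4 : ℤ) ∣ (d.centralBinom : ℤ) by exact_mod_cast h1).mul_left _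
  rw [show (4 : ℤ) = 2 * 2 by norm_num] at h3
  exact (mul_dvd_mul_iff_left (by norm_num)).mp h3

lemma V_one (hn : ∀ d : ℕ, 0 < d → ∑ a ∈ d.divisors, (a : ℤ) ^ 2 * n a = bb d) :
    VV n 1 = -1 := by
  have h := hn 1 (by norm_num)
  simp [VV] at h ⊢
  rw [h]
  decide

lemma V_two (hn : ∀ d : ℕ, 0 < d → ∑ a ∈ d.divisors, (a : ℤ) ^ 2 * n a = bb d) :
    VV n 2 = 0 := by
  have h1 := V_one hn
  have h := hn 2 (by norm_num)
  have hdiv : (2 : ℕ).divisors = {1, 2} := by decide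
  have h2 : bb 2 = 3 := by decide
  rw [hdiv] at h
  simp [VV, hdiv] at h h1 ⊢
  rw [h2] at h
  omega

/-- `V(d)` is even for `d ≥ 2` -/
lemma V_even (hn : ∀ d : ℕ, 0 < d → ∑ a ∈ d.divisors, (a : ℤ) ^ 2 * n a = bb d) (d : ℕ)
    (hd : 2 ≤ d) : (2 : ℤ) ∣ VV n d := by
  induction d using Nat.strong_induction_on with
  | _ d ih =>
    rcases Nat.even_or_odd d with he | ho
    · obtain ⟨m, hm⟩ := he
      obtain rfl : d = 2 * m := by omega
      rcases eq_or_lt_of_le (show 1 ≤ m by omega) with h1 | h1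
      · rw [← h1, mul_one, V_two hn]; simp
      · obtain ⟨v, w, hv, hw⟩ := exists_ord Nat.prime_two (show 0 < m by omega)
        have h2 := stepV (q := 8) Nat.prime_two q8 hn (show 0 < m by omega) (r := v + 1)
          (by rw [hv, pow_succ]; exact ⟨w, by ring⟩)
        have h3 := (bb_two (show 0 < m by omega) (e := v) (by rw [hv]; exact Dvd.intro w rfl)
          (Or.inl h1)).2 h1
        have h4 : (2 : ℤ) ^ (2 * v + 3) ∣ ((2 * m : ℕ) : ℤ) ^ 2 * (VV n (2 * m) - VV n m) := by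
          have h5 : (2 : ℤ) ^ (2 * v + 3) ∣
              ((2 * m : ℕ) : ℤ) ^ 2 * (VV n (2 * m) - VV n m) - (bb (2 * m) - bb m) := by
            refine Dvd.dvd.trans ?_ h2
            push_cast
            exact ⟨4, by ring⟩
          have h6 := dvd_add h5 h3
          rwa [sub_add_cancel] at h6
        have e6 : ((2 * m : ℕ) : ℤ) ^ 2 = 2 ^ (2 * v + 2) * (w : ℤ) ^ 2 := by
          rw [hv]; push_cast; ring
        rw [e6, mul_assoc, show (2 : ℤ) ^ (2 * v + 3) = 2 ^ (2 * v + 2) * 2 by ring] at h4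
        have h7 := (mul_dvd_mul_iff_left (by positivity)).mp h4
        have hw' : ¬ (2 : ℤ) ∣ (w : ℤ) ^ 2 := by
          intro h
          exact hw (by exact_mod_cast Int.Prime.dvd_pow' Nat.prime_two h)
        have h8 := odd_dvd_of_two hw' h7
        have h9 := ih m (by omega) h1
        have := dvd_add h8 h9
        rwa [sub_add_cancel] at this
    · have h3 : 3 ≤ d := by
        obtain ⟨t, ht⟩ := ho
        omega
      have hnd : ¬ 2 ∣ d := by
        intro h
        exact (Nat.not_even_iff_odd.mpr ho) (even_iff_two_dvd.mpr h)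
      have h1 := stepV0 (q := 8) q8 hn (show 0 < d by omega) hnd
      have h2 := bb_even_of_odd ho h3
      have h4 : (2 : ℤ) ∣ (d : ℤ) ^ 2 * VV n d := by
        have h5 : (2 : ℤ) ∣ (d : ℤ) ^ 2 * VV n d - bb d := (by norm_num : (2 : ℤ) ∣ ((8 : ℕ) : ℤ)).trans h1
        have := dvd_add h5 h2
        rwa [sub_add_cancel] at this
      apply odd_dvd_of_two ?_ h4
      intro h
      exact hnd (by exact_mod_cast Int.Prime.dvd_pow' Nat.prime_two h)

lemma V_conv_mod4 (hn : ∀ d : ℕ, 0 < d → ∑ a ∈ d.divisors, (a : ℤ) ^ 2 * n a = bb d) {d : ℕ}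
    (hd : 3 ≤ d) : (4 : ℤ) ∣ ∑ x ∈ antidiagonal d, VV n x.1 * VV n x.2 := by
  have h1 : ∑ x ∈ antidiagonal d, VV n x.1 * VV n x.2 =
      ∑ x ∈ antidiagonal d, (VV n x.1 * VV n x.2
        - (if x.1 = 1 then VV n 1 * VV n (d - 1) else 0)
        - (if x.2 = 1 then VV n 1 * VV n (d - 1) else 0)) + 2 * (VV n 1 * VV n (d - 1)) := by
    rw [Finset.sum_sub_distrib, Finset.sum_sub_distrib]
    have h2 : ∑ x ∈ antidiagonal d, (if x.1 = 1 then VV n 1 * VV n (d - 1) else 0) =
        VV n 1 * VV n (d - 1) := by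
      rw [Finset.Nat.sum_antidiagonal_eq_sum_range_succ_mk]
      simp only
      rw [Finset.sum_ite_eq', if_pos (by rw [mem_range]; omega)]
    have h3 : ∑ x ∈ antidiagonal d, (if x.2 = 1 then VV n 1 * VV n (d - 1) else 0) =
        VV n 1 * VV n (d - 1) := by
      rw [← Finset.Nat.sum_antidiagonal_swap]
      simp only [Prod.snd_swap]
      exact h2
    rw [h2, h3]; ring
  rw [h1]
  apply dvd_add
  · apply Finset.dvd_sum
    rintro ⟨i, j⟩ hx
    rw [HasAntidiagonal.mem_antidiagonal] at hx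
    simp only at hx ⊢
    rcases Nat.eq_zero_or_pos i with hi | hi
    · subst hi
      rw [VV_zero, if_neg (by omega), if_neg (by omega)]; simp
    rcases Nat.eq_zero_or_pos j with hj | hj
    · subst hj
      rw [VV_zero, if_neg (by omega), if_neg (by omega)]; simp
    rcases eq_or_lt_of_le (show 1 ≤ i by omega) with hi1 | hi1
    · subst hi1
      rw [if_pos rfl, if_neg (by omega), show d - 1 = j by omega]; simp
    rcases eq_or_lt_of_le (show 1 ≤ j by omega) with hj1 | hj1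
    · subst hj1
      rw [if_neg (by omega), if_pos rfl, show d - 1 = i by omega, mul_comm (VV n i)]; simp
    rw [if_neg (by omega), if_neg (by omega), sub_zero, sub_zero,
      show (4 : ℤ) = 2 * 2 by norm_num]
    exact mul_dvd_mul (V_even hn i hi1) (V_even hn j hj1)
  · rw [show (4 : ℤ) = 2 * 2 by norm_num]
    exact mul_dvd_mul_left 2 ((V_even hn (d - 1) (by omega)).mul_left _)

lemma N_small (hG : ∀ d : ℕ, 0 < d → ∑ a ∈ d.divisors, (a : ℤ) * G a = (-4) ^ d) :
    NN G 1 = -4 ∧ NN G 2 = 2 ∧ NN G 4 = 64 := by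
  have h1 := hG 1 (by norm_num)
  have h2 := hG 2 (by norm_num)
  have h4 := hG 4 (by norm_num)
  have hdiv2 : (2 : ℕ).divisors = {1, 2} := by decide
  have hdiv4 : (4 : ℕ).divisors = {1, 2, 4} := by decide
  rw [hdiv2] at h2
  rw [hdiv4] at h4
  simp at h1 h2 h4
  simp [NN, hdiv2, hdiv4]
  omega

lemma N_mod8 (hG : ∀ d : ℕ, 0 < d → ∑ a ∈ d.divisors, (a : ℤ) * G a = (-4) ^ d) (d : ℕ)
    (hd : 3 ≤ d) : (8 : ℤ) ∣ NN G d := by
  induction d using Nat.strong_induction_on with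
  | _ d ih =>
    rcases Nat.even_or_odd d with he | ho
    · obtain ⟨m, hm⟩ := he
      obtain rfl : d = 2 * m := by omega
      rcases eq_or_lt_of_le (show 2 ≤ m by omega) with h1 | h1
      · rw [← h1, (N_small hG).2.2]; norm_num
      · obtain ⟨v, w, hv, hw⟩ := exists_ord Nat.prime_two (show 0 < m by omega)
        have h2 := stepN (q := 8) (g := fun d => (-4) ^ d) Nat.prime_two q8 hG
          (show 0 < m by omega) (r := v + 1) (by rw [hv, pow_succ]; exact ⟨w, by ring⟩)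
        have hvm : v + 4 ≤ 2 * m := by
          have h3 : 2 ^ v ≤ m := Nat.le_of_dvd (by omega) (by rw [hv]; exact Dvd.intro w rfl)
          have h4 : v < 2 ^ v := Nat.lt_two_pow_self
          omega
        have h3 : (2 : ℤ) ^ (v + 4) ∣ (-4) ^ (2 * m) - (-4) ^ m := by
          have e : ((-4 : ℤ)) ^ (2 * m) - (-4) ^ m = 2 ^ (2 * m) * ((-1) ^ m * ((-4) ^ m - 1)) := by
            have : ((-4 : ℤ)) ^ m = 2 ^ (2 * m) * (-1) ^ m := by
              rw [pow_mul, ← mul_pow]; norm_num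
            rw [two_mul m, pow_add]
            nth_rewrite 1 [this]
            nth_rewrite 2 [this]
            rw [← two_mul m]
            ring
          rw [e]
          exact (pow_dvd_pow 2 hvm).mul_right _
        have h4 : (2 : ℤ) ^ (v + 4) ∣ ((2 * m : ℕ) : ℤ) * (NN G (2 * m) - 2 * NN G m) := by
          have h5 : (2 : ℤ) ^ (v + 4) ∣ ((2 * m : ℕ) : ℤ) * (NN G (2 * m) - ((2 : ℕ) : ℤ) * NN G m) -
              ((-4) ^ (2 * m) - (-4) ^ m) := by
            refine Dvd.dvd.trans ?_ h2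
            push_cast
            exact ⟨1, by ring⟩
          have h6 := dvd_add h5 h3
          rw [sub_add_cancel] at h6
          exact_mod_cast h6
        have e6 : ((2 * m : ℕ) : ℤ) = 2 ^ (v + 1) * (w : ℤ) := by
          rw [hv]; push_cast; ring
        rw [e6, mul_assoc, show (2 : ℤ) ^ (v + 4) = 2 ^ (v + 1) * 2 ^ 3 by ring] at h4
        have h7 := (mul_dvd_mul_iff_left (by positivity)).mp h4
        have hw' : ¬ (2 : ℤ) ∣ (w : ℤ) := by exact_mod_cast hw
        have h8 : (2 : ℤ) ^ 3 ∣ NN G (2 * m) - 2 * NN G m :=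
          two_pow_dvd_of_odd_mul hw' (by rw [mul_comm]; exact h7)
        have h9 := ih m (by omega) (by omega)
        have h10 : (8 : ℤ) ∣ 2 * NN G m := h9.mul_left 2
        have h11 : (8 : ℤ) ∣ NN G (2 * m) - 2 * NN G m := by
          rw [show (8 : ℤ) = 2 ^ 3 by norm_num]; exact h8
        have := dvd_add h11 h10
        rwa [sub_add_cancel] at this
    · have hnd : ¬ 2 ∣ d := by
        intro h
        exact (Nat.not_even_iff_odd.mpr ho) (even_iff_two_dvd.mpr h)
      have h1 := stepN0 (q := 8) (g := fun d => (-4) ^ d) q8 hG (show 0 < d by omega) hnd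
      have h2 : (8 : ℤ) ∣ (-4) ^ d := by
        obtain ⟨t, rfl⟩ : ∃ t, d = t + 3 := ⟨d - 3, by omega⟩
        rw [pow_add]
        exact Dvd.dvd.mul_left (by norm_num) _
      have h4 : (8 : ℤ) ∣ (d : ℤ) * NN G d := by
        have h5 : (8 : ℤ) ∣ (d : ℤ) * NN G d - (-4) ^ d := by exact_mod_cast h1
        have := dvd_add h5 h2
        rwa [sub_add_cancel] at this
      have hd' : ¬ (2 : ℤ) ∣ (d : ℤ) := by exact_mod_cast hnd
      have h5 := two_pow_dvd_of_odd_mul (n := 3) hd' (x := NN G d) (by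
        rw [mul_comm]; norm_num; exact h4)
      norm_num at h5
      exact h5

lemma total_mod8 (hn : ∀ d : ℕ, 0 < d → ∑ a ∈ d.divisors, (a : ℤ) ^ 2 * n a = bb d)
    (hG : ∀ d : ℕ, 0 < d → ∑ a ∈ d.divisors, (a : ℤ) * G a = (-4) ^ d) {d : ℕ} (hd : 0 < d) :
    (8 : ℤ) ∣ NN G d - 4 * VV n d - 2 * ∑ x ∈ antidiagonal d, VV n x.1 * VV n x.2 := by
  rcases Nat.lt_or_ge d 3 with h | h
  · have h12 : d = 1 ∨ d = 2 := by omega
    rcases h12 with rfl | rfl
    · rw [(N_small hG).1, V_one hn]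
      have : antidiagonal 1 = ({(0, 1), (1, 0)} : Finset (ℕ × ℕ)) := by decide
      rw [this]
      simp [VV_zero]
    · rw [(N_small hG).2.1, V_two hn]
      have : antidiagonal 2 = ({(0, 2), (1, 1), (2, 0)} : Finset (ℕ × ℕ)) := by decide
      rw [this]
      simp [VV_zero, V_one hn]
  · have h1 := N_mod8 hG d h
    have h2 := V_even hn d (by omega)
    have h3 := V_conv_mod4 hn h
    obtain ⟨a, ha⟩ := h1
    obtain ⟨b, hb⟩ := h2
    obtain ⟨c, hc⟩ := h3
    rw [ha, hb, hc]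
    exact ⟨a - b - c, by ring⟩

theorem total_mod24 (hn : ∀ d : ℕ, 0 < d → ∑ a ∈ d.divisors, (a : ℤ) ^ 2 * n a = bb d)
    (hG : ∀ d : ℕ, 0 < d → ∑ a ∈ d.divisors, (a : ℤ) * G a = (-4) ^ d) {d : ℕ} (hd : 0 < d) :
    (24 : ℤ) ∣ NN G d - 4 * VV n d - 2 * ∑ x ∈ antidiagonal d, VV n x.1 * VV n x.2 := by
  have h1 := total_mod8 hn hG hd
  have h2 := total_mod3 hn hG hd
  omega

end main

end MPa4e0fb
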