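import Pool.Agent.Lib.MP_a4e0fb_ag.H72Defs

/-!
# Klemm-Pandharipande meeting numbers: closed form

`Γ` is the group `H_2(X, ℤ)`, `E` the set of classes `β > 0` (nonzero effective classes).
-/

open Finset Function
open scoped Classical

namespace MPa4e0fb

variable {Γ : Type*} [AddCommGroup Γ]

/-- pushforward along multiplication by `k` -/
noncomputable def push (k : ℕ) (f : Γ → ℚ) (β : Γ) : ℚ := ∑ᶠ α, if k • α = β then f α else 0

/-- two variable version -/
noncomputable def push2 (k l : ℕ) (h : Γ → Γ → ℚ) (β : Γ) : ℚ :=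
  ∑ᶠ x : Γ × Γ, if k • x.1 + l • x.2 = β then h x.1 x.2 else 0

section
variable {deg : Γ →+ ℤ} {E : Set Γ}

lemma fin_support_aux (hE : IsEff deg E) (f : Γ → ℚ) (hf : ∀ α, α ∉ E → f α = 0) (D : ℤ)
    (q : Γ → Prop) [DecidablePred q] (hq : ∀ α, α ∈ E → q α → deg α ≤ D) :
    (support fun α => if q α then f α else 0).Finite := by
  refine (hE.fin D).subset ?_
  intro α hα
  have h1 : q α := by
    by_contra h; simp [h] at hα
  have h2 : f α ≠ 0 := by
    simpa [h1] using hα
  have h3 : α ∈ E := by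
    by_contra h; exact h2 (hf _ h)
  exact ⟨h3, hq α h3 h1⟩

lemma deg_nsmul (deg : Γ →+ ℤ) (k : ℕ) (α : Γ) : deg (k • α) = k * deg α := by
  rw [map_nsmul]; simp

lemma deg_le_of_nsmul (hE : IsEff deg E) {k : ℕ} (hk : 0 < k) {α β : Γ} (hα : α ∈ E)
    (h : k • α = β) : deg α ≤ deg β ∧ (k : ℤ) ≤ deg β := by
  have h1 := hE.pos α hα
  rw [← h, deg_nsmul]
  have hk' : (1 : ℤ) ≤ k := by exact_mod_cast hk
  constructor <;> nlinarith

lemma push_zero_of_gt (hE : IsEff deg E) {f : Γ → ℚ} (hf : ∀ α, α ∉ E → f α = 0) {k : ℕ} {β : Γ}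
    (hk : deg β < k) (hk0 : 0 < k) : push k f β = 0 := by
  unfold push
  rw [finsum_eq_zero_of_forall_eq_zero]
  intro α
  split_ifs with h
  · apply hf
    intro hα
    have := (deg_le_of_nsmul hE hk0 hα h).2
    omega
  · rfl

lemma mcs_eq (hE : IsEff deg E) (a : ℕ → ℚ) {f : Γ → ℚ} (hf : ∀ α, α ∉ E → f α = 0) {β : Γ}
    {D : ℕ} (hD : deg β ≤ D) : mcs a f β = ∑ k ∈ Icc 1 D, a k * push k f β := by
  unfold mcs
  have hfin : (support fun x : ℕ × Γ => if 0 < x.1 ∧ x.1 • x.2 = β then a x.1 * f x.2 else 0).Finite := by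
    refine ((Icc 1 D).finite_toSet.prod (hE.fin D)).subset ?_
    rintro ⟨k, α⟩ hx
    have h1 : 0 < k ∧ k • α = β := by
      by_contra h; simp only [mem_support] at hx; rw [if_neg h] at hx; exact hx rfl
    have h2 : f α ≠ 0 := by
      intro h; simp only [mem_support] at hx; rw [if_pos h1, h, mul_zero] at hx; exact hx rfl
    have h3 : α ∈ E := by
      by_contra h; exact h2 (hf _ h)
    have h4 := deg_le_of_nsmul hE h1.1 h3 h1.2
    refine ⟨?_, h3, h4.1.trans hD⟩
    simp only [coe_Icc, Set.mem_Icc]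
    refine ⟨h1.1, ?_⟩
    have := h4.2.trans hD
    exact_mod_cast this
  rw [finsum_curry _ hfin]
  rw [finsum_eq_sum_of_support_subset (s := Icc 1 D)]
  · apply Finset.sum_congr rfl
    intro k hk
    rw [mem_Icc] at hk
    unfold push
    rw [mul_finsum]
    apply finsum_congr
    intro α
    have : 0 < k := hk.1
    by_cases h : k • α = β <;> simp [h, this]
  · intro k hk
    rw [mem_support] at hk
    obtain ⟨α, hα⟩ : ∃ α, (if 0 < (k, α).1 ∧ (k, α).1 • (k, α).2 = β then a (k, α).1 * f (k, α).2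
        else 0) ≠ 0 := by
      by_contra hcon
      push Not at hcon
      exact hk (finsum_eq_zero_of_forall_eq_zero hcon)
    simp only at hα
    have h1 : 0 < k ∧ k • α = β := by
      by_contra h; rw [if_neg h] at hα; exact hα rfl
    have h2 : f α ≠ 0 := by
      intro h; rw [if_pos h1, h, mul_zero] at hα; exact hα rfl
    have h3 : α ∈ E := by
      by_contra h; exact h2 (hf _ h)
    have h4 := deg_le_of_nsmul hE h1.1 h3 h1.2
    simp only [coe_Icc, Set.mem_Icc]
    refine ⟨h1.1, ?_⟩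
    have := h4.2.trans hD
    exact_mod_cast this


lemma push_zero_of_not_mem (hE : IsEff deg E) {f : Γ → ℚ} (hf : ∀ α, α ∉ E → f α = 0) {k : ℕ}
    (hk : 0 < k) {β : Γ} (hβ : β ∉ E) : push k f β = 0 := by
  unfold push
  rw [finsum_eq_zero_of_forall_eq_zero]
  intro α
  split_ifs with h
  · apply hf
    intro hα
    apply hβ
    rw [← h]
    clear h hβ
    induction k with
    | zero => omega
    | succ n ih =>
      rcases Nat.eq_zero_or_pos n with h0 | h0
      · subst h0; simpa using hα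
      · rw [succ_nsmul]; exact hE.add _ (ih h0) _ hα
  · rfl

lemma nsmul_mem (hE : IsEff deg E) {k : ℕ} (hk : 0 < k) {α : Γ} (hα : α ∈ E) : k • α ∈ E := by
  induction k with
  | zero => omega
  | succ n ih =>
    rcases Nat.eq_zero_or_pos n with h0 | h0
    · subst h0; simpa using hα
    · rw [succ_nsmul]; exact hE.add _ (ih h0) _ hα

lemma deg_le_of_two (hE : IsEff deg E) {k l : ℕ} (hk : 0 < k) (hl : 0 < l) {α γ β : Γ}
    (hα : α ∈ E) (hγ : γ ∈ E) (h : k • α + l • γ = β) :
    deg α ≤ deg β ∧ deg γ ≤ deg β ∧ (k : ℤ) + l ≤ deg β := by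
  have h1 := hE.pos α hα
  have h2 := hE.pos γ hγ
  rw [← h, map_add, deg_nsmul, deg_nsmul]
  have hk' : (1 : ℤ) ≤ k := by exact_mod_cast hk
  have hl' : (1 : ℤ) ≤ l := by exact_mod_cast hl
  refine ⟨?_, ?_, ?_⟩ <;> nlinarith

lemma push2_zero_of_gt (hE : IsEff deg E) {h : Γ → Γ → ℚ} (hh : ∀ a b, a ∉ E ∨ b ∉ E → h a b = 0)
    {k l : ℕ} (hk : 0 < k) (hl : 0 < l) {β : Γ} (hkl : deg β < k + l) : push2 k l h β = 0 := by
  unfold push2
  rw [finsum_eq_zero_of_forall_eq_zero]
  rintro ⟨α, γ⟩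
  split_ifs with h1
  · by_contra hne
    have hα : α ∈ E := by
      by_contra h'; exact hne (hh _ _ (Or.inl h'))
    have hγ : γ ∈ E := by
      by_contra h'; exact hne (hh _ _ (Or.inr h'))
    have := (deg_le_of_two hE hk hl hα hγ h1).2.2
    omega
  · rfl

lemma push2_support_fin (hE : IsEff deg E) {h : Γ → Γ → ℚ}
    (hh : ∀ a b, a ∉ E ∨ b ∉ E → h a b = 0) {k l : ℕ} (hk : 0 < k) (hl : 0 < l) (β : Γ) :
    (support fun x : Γ × Γ => if k • x.1 + l • x.2 = β then h x.1 x.2 else 0).Finite := by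
  refine ((hE.fin (deg β)).prod (hE.fin (deg β))).subset ?_
  rintro ⟨α, γ⟩ hx
  rw [mem_support] at hx
  have h1 : k • α + l • γ = β := by
    by_contra h'; exact hx (if_neg h')
  have h2 : h α γ ≠ 0 := by
    intro h'; apply hx; simp only [h1, if_true]; exact h'
  have hα : α ∈ E := by
    by_contra h'; exact h2 (hh _ _ (Or.inl h'))
  have hγ : γ ∈ E := by
    by_contra h'; exact h2 (hh _ _ (Or.inr h'))
  have := deg_le_of_two hE hk hl hα hγ h1
  exact ⟨⟨hα, this.1⟩, ⟨hγ, this.2.1⟩⟩

lemma pairSum_eq (hE : IsEff deg E) {p : Γ → Γ → ℚ} (hp : ∀ a b, a ∉ E ∨ b ∉ E → p a b = 0)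
    {β : Γ} {D : ℕ} (hD : deg β ≤ D) :
    pairSum p β = ∑ k ∈ Icc 1 D, ∑ l ∈ Icc 1 D, push2 k l p β := by
  unfold pairSum
  have key : ∀ (k l : ℕ) (α γ : Γ), (if (0 < k ∧ 0 < l) ∧ k • α + l • γ = β then p α γ else 0) ≠ 0 →
      (0 < k ∧ k ≤ D) ∧ (0 < l ∧ l ≤ D) ∧ (α ∈ E ∧ deg α ≤ D) ∧ (γ ∈ E ∧ deg γ ≤ D) := by
    intro k l α γ hx
    have h1 : (0 < k ∧ 0 < l) ∧ k • α + l • γ = β := by
      by_contra h'; exact hx (if_neg h')
    have h2 : p α γ ≠ 0 := by
      intro h'; apply hx; rw [if_pos h1]; exact h'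
    have hα : α ∈ E := by
      by_contra h'; exact h2 (hp _ _ (Or.inl h'))
    have hγ : γ ∈ E := by
      by_contra h'; exact h2 (hp _ _ (Or.inr h'))
    have := deg_le_of_two hE h1.1.1 h1.1.2 hα hγ h1.2
    refine ⟨⟨h1.1.1, ?_⟩, ⟨h1.1.2, ?_⟩, ⟨hα, by omega⟩, ⟨hγ, by omega⟩⟩ <;> omega
  have hfin : (support fun x : (ℕ × ℕ) × (Γ × Γ) =>
      if (0 < x.1.1 ∧ 0 < x.1.2) ∧ x.1.1 • x.2.1 + x.1.2 • x.2.2 = β
      then p x.2.1 x.2.2 else 0).Finite := by
    refine (((Icc 1 D).finite_toSet.prod (Icc 1 D).finite_toSet).prod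
      ((hE.fin D).prod (hE.fin D))).subset ?_
    rintro ⟨⟨k, l⟩, ⟨α, γ⟩⟩ hx
    have := key k l α γ hx
    refine ⟨⟨?_, ?_⟩, ⟨this.2.2.1, this.2.2.2⟩⟩
    · simp only [coe_Icc, Set.mem_Icc]; exact this.1
    · simp only [coe_Icc, Set.mem_Icc]; exact this.2.1
  rw [finsum_curry _ hfin]
  rw [finsum_eq_sum_of_support_subset (s := Icc 1 D ×ˢ Icc 1 D), Finset.sum_product]
  · apply Finset.sum_congr rfl
    intro k hk
    apply Finset.sum_congr rfl
    intro l hl
    rw [mem_Icc] at hk hl
    unfold push2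
    apply finsum_congr
    intro x
    have h1 : 0 < k := hk.1
    have h2 : 0 < l := hl.1
    simp [h1, h2]
  · rintro ⟨k, l⟩ hk
    rw [mem_support] at hk
    obtain ⟨⟨α, γ⟩, hα⟩ : ∃ x : Γ × Γ, (if (0 < ((k, l), x).1.1 ∧ 0 < ((k, l), x).1.2) ∧
        ((k, l), x).1.1 • ((k, l), x).2.1 + ((k, l), x).1.2 • ((k, l), x).2.2 = β then
        p ((k, l), x).2.1 ((k, l), x).2.2 else 0) ≠ 0 := by
      by_contra hcon
      push Not at hcon
      exact hk (finsum_eq_zero_of_forall_eq_zero hcon)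
    have := key k l α γ hα
    simp only [coe_product, coe_Icc, Set.mem_prod, Set.mem_Icc]
    exact ⟨this.1, this.2.1⟩

/-- reindexing of a triangular sum -/
lemma sum_shift {D : ℕ} (F : ℕ → ℚ) (hF : ∀ j, D < j → F j = 0) (l : ℕ) :
    ∑ k ∈ Icc 1 D, F (k + l) = ∑ j ∈ Icc 1 D, if l < j then F j else 0 := by
  rw [← Finset.sum_filter]
  have h1 : ∑ k ∈ Icc 1 D, F (k + l) = ∑ k ∈ (Icc 1 D).filter (fun k => k + l ≤ D), F (k + l) := by
    rw [Finset.sum_filter]
    apply Finset.sum_congr rfl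
    intro k _
    split_ifs with h
    · rfl
    · exact hF _ (by omega)
  rw [h1]
  refine Finset.sum_nbij' (fun k => k + l) (fun j => j - l) ?_ ?_ ?_ ?_ ?_
  · intro k hk
    simp only [mem_filter, mem_Icc] at hk ⊢
    omega
  · intro k hk
    simp only [mem_filter, mem_Icc] at hk ⊢
    omega
  · intro k hk
    simp
  · intro k hk
    simp only [mem_filter, mem_Icc] at hk
    omega
  · intro k hk
    rfl

lemma sum_two_index {D : ℕ} (F : ℕ → ℚ) (hF : ∀ j, D < j → F j = 0) :
    ∑ k ∈ Icc 1 D, ∑ l ∈ Icc 1 D, F (k + l) = ∑ j ∈ Icc 1 D, ((j : ℚ) - 1) * F j := by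
  have : ∀ k ∈ Icc 1 D, ∑ l ∈ Icc 1 D, F (k + l) = ∑ j ∈ Icc 1 D, if k < j then F j else 0 := by
    intro k _
    rw [← sum_shift F hF k]
    apply Finset.sum_congr rfl
    intro l _
    rw [add_comm]
  rw [Finset.sum_congr rfl this, Finset.sum_comm]
  apply Finset.sum_congr rfl
  intro j hj
  rw [mem_Icc] at hj
  rw [← Finset.sum_filter, Finset.sum_const]
  have : (filter (fun k => k < j) (Icc 1 D)) = Icc 1 (j - 1) := by
    ext x
    simp only [mem_filter, mem_Icc]
    omega
  rw [this, Nat.card_Icc, nsmul_eq_mul]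
  congr 1
  rw [Nat.add_sub_cancel, Nat.cast_sub hj.1]
  simp

end

section meeting
variable {deg : Γ →+ ℤ} {E : Set Γ} {c : Γ → ℚ} {p m : Γ → Γ → ℚ}

lemma meeting_support (hE : IsEff deg E) (hc : ∀ a, a ∉ E → c a = 0)
    (hp : ∀ a b, a ∉ E ∨ b ∉ E → p a b = 0) (hm : IsMeeting deg c p m) :
    ∀ N : ℕ, ∀ a b : Γ, deg a + deg b ≤ N → (a ∉ E ∨ b ∉ E) → m a b = 0 := by
  intro N
  induction N with
  | zero =>
    intro a b hab _
    apply hm.zero
    by_contra h
    push Not at h
    push_cast at hab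
    omega
  | succ N ih =>
    intro a b hab hE'
    by_cases h0 : deg a ≤ 0 ∨ deg b ≤ 0
    · exact hm.zero a b h0
    push Not at h0
    obtain ⟨ha, hb⟩ := h0
    push_cast at hab
    by_cases hne : a = b
    · subst hne
      have ha' : a ∉ E := by simpa using hE'
      rw [hm.diag, hc a ha', hp a a (Or.inl ha')]
      rw [finsum_eq_zero_of_forall_eq_zero]
      · simp
      · intro x
        apply ih
        · rw [map_sub]; omega
        · by_contra hcon
          push Not at hcon
          apply ha'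
          have := hE.add _ hcon.1 _ hcon.2
          simpa using this
    · rw [hm.step a b hne, hp a b hE']
      have h1 : m a (b - a) = 0 := by
        apply ih
        · rw [map_sub]; omega
        · by_contra hcon
          push Not at hcon
          have := hE.add _ hcon.1 _ hcon.2
          rw [add_sub_cancel] at this
          rcases hE' with h | h
          · exact h hcon.1
          · exact h this
      have h2 : m (a - b) b = 0 := by
        apply ih
        · rw [map_sub]; omega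
        · by_contra hcon
          push Not at hcon
          have := hE.add _ hcon.1 _ hcon.2
          rw [sub_add_cancel] at this
          rcases hE' with h | h
          · exact h this
          · exact h hcon.2
      rw [h1, h2]; simp

lemma meeting_zero (hE : IsEff deg E) (hc : ∀ a, a ∉ E → c a = 0)
    (hp : ∀ a b, a ∉ E ∨ b ∉ E → p a b = 0) (hm : IsMeeting deg c p m) (a b : Γ)
    (hab : a ∉ E ∨ b ∉ E) : m a b = 0 :=
  meeting_support hE hc hp hm (deg a + deg b).toNat a b (Int.self_le_toNat _) hab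

/-- the shear `(a, b) ↦ (a, b - a)` -/
def shear (Γ : Type*) [AddCommGroup Γ] : Γ × Γ ≃ Γ × Γ where
  toFun x := (x.1, x.2 - x.1)
  invFun x := (x.1, x.1 + x.2)
  left_inv x := by simp
  right_inv x := by simp

/-- the shear `(a, b) ↦ (a - b, b)` -/
def shear' (Γ : Type*) [AddCommGroup Γ] : Γ × Γ ≃ Γ × Γ where
  toFun x := (x.1 - x.2, x.2)
  invFun x := (x.1 + x.2, x.2)
  left_inv x := by simp
  right_inv x := by simp

/-- the change of variables `(a, b) ↦ (a + b, a)` -/
def sumEquiv (Γ : Type*) [AddCommGroup Γ] : Γ × Γ ≃ Γ × Γ where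
  toFun x := (x.1 + x.2, x.1)
  invFun x := (x.2, x.1 - x.2)
  left_inv x := by simp
  right_inv x := by simp

/-- the source term -/
noncomputable def src (p m : Γ → Γ → ℚ) (a b : Γ) : ℚ := if a = b then m a a else p a b

lemma meeting_step (hm : IsMeeting deg c p m) (a b : Γ) :
    m a b = src p m a b + m a (b - a) + m (a - b) b := by
  unfold src
  split_ifs with h
  · subst h
    rw [sub_self, hm.zero a 0 (by right; simp), hm.zero 0 a (by left; simp)]
    simp
  · exact hm.step a b h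

lemma push2_step (hE : IsEff deg E) (hc : ∀ a, a ∉ E → c a = 0)
    (hp : ∀ a b, a ∉ E ∨ b ∉ E → p a b = 0) (hm : IsMeeting deg c p m) {k l : ℕ} (hk : 0 < k)
    (hl : 0 < l) (β : Γ) :
    push2 k l m β = push2 k l (src p m) β + push2 (k + l) l m β + push2 k (k + l) m β := by
  have hm0 := fun a b => meeting_zero hE hc hp hm a b
  have hs0 : ∀ a b, a ∉ E ∨ b ∉ E → src p m a b = 0 := by
    intro a b hab
    unfold src
    split_ifs with h
    · subst h; exact hm0 _ _ hab
    · exact hp _ _ hab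
  have e1 : push2 (k + l) l m β =
      ∑ᶠ x : Γ × Γ, if k • x.1 + l • x.2 = β then m x.1 (x.2 - x.1) else 0 := by
    unfold push2
    rw [← finsum_comp_equiv (shear Γ)]
    apply finsum_congr
    intro x
    have : (k + l) • ((shear Γ) x).1 + l • ((shear Γ) x).2 = k • x.1 + l • x.2 := by
      simp only [shear, Equiv.coe_fn_mk, add_nsmul, nsmul_sub]
      abel
    rw [this]
    rfl
  have e2 : push2 k (k + l) m β =
      ∑ᶠ x : Γ × Γ, if k • x.1 + l • x.2 = β then m (x.1 - x.2) x.2 else 0 := by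
    unfold push2
    rw [← finsum_comp_equiv (shear' Γ)]
    apply finsum_congr
    intro x
    have : k • ((shear' Γ) x).1 + (k + l) • ((shear' Γ) x).2 = k • x.1 + l • x.2 := by
      simp only [shear', Equiv.coe_fn_mk, add_nsmul, nsmul_sub]
      abel
    rw [this]
    rfl
  have f1 : (support fun x : Γ × Γ => if k • x.1 + l • x.2 = β then m x.1 (x.2 - x.1) else 0).Finite := by
    have := (push2_support_fin hE hm0 (k := k + l) (l := l) (by omega) hl β).preimage
      ((shear Γ).injective.injOn)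
    refine this.subset ?_
    intro x hx
    simp only [Set.mem_preimage, mem_support] at hx ⊢
    have h' : (k + l) • ((shear Γ) x).1 + l • ((shear Γ) x).2 = k • x.1 + l • x.2 := by
      simp only [shear, Equiv.coe_fn_mk, add_nsmul, nsmul_sub]
      abel
    rw [h']
    exact hx
  have f2 : (support fun x : Γ × Γ => if k • x.1 + l • x.2 = β then m (x.1 - x.2) x.2 else 0).Finite := by
    have := (push2_support_fin hE hm0 (k := k) (l := k + l) hk (by omega) β).preimage
      ((shear' Γ).injective.injOn)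
    refine this.subset ?_
    intro x hx
    simp only [Set.mem_preimage, mem_support] at hx ⊢
    have h' : k • ((shear' Γ) x).1 + (k + l) • ((shear' Γ) x).2 = k • x.1 + l • x.2 := by
      simp only [shear', Equiv.coe_fn_mk, add_nsmul, nsmul_sub]
      abel
    rw [h']
    exact hx
  have f0 := push2_support_fin hE hs0 hk hl β
  have f01 : (support fun x : Γ × Γ =>
      (if k • x.1 + l • x.2 = β then src p m x.1 x.2 else 0) +
      (if k • x.1 + l • x.2 = β then m x.1 (x.2 - x.1) else 0)).Finite :=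
    (f0.union f1).subset (support_add _ _)
  rw [e1, e2]
  unfold push2
  rw [← finsum_add_distrib f0 f1, ← finsum_add_distrib f01 f2]
  apply finsum_congr
  intro x
  split_ifs with h
  · exact meeting_step hm x.1 x.2
  · simp

lemma push2_diag (hE : IsEff deg E) (hc : ∀ a, a ∉ E → c a = 0)
    (hp : ∀ a b, a ∉ E ∨ b ∉ E → p a b = 0) (hm : IsMeeting deg c p m) {k : ℕ} (hk : 0 < k)
    (β : Γ) :
    push2 k k m β = push k (fun δ => ∑ᶠ a, m a (δ - a)) β := by
  have hm0 := fun a b => meeting_zero hE hc hp hm a b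
  have hcond : ∀ y : Γ × Γ, k • ((sumEquiv Γ).symm y).1 + k • ((sumEquiv Γ).symm y).2 = k • y.1 := by
    intro y
    simp only [sumEquiv, Equiv.coe_fn_symm_mk, nsmul_sub]
    abel
  have e1 : push2 k k m β = ∑ᶠ y : Γ × Γ, if k • y.1 = β then m y.2 (y.1 - y.2) else 0 := by
    unfold push2
    rw [← finsum_comp_equiv (sumEquiv Γ).symm]
    apply finsum_congr
    intro y
    rw [hcond y]
    rfl
  have f1 : (support fun y : Γ × Γ => if k • y.1 = β then m y.2 (y.1 - y.2) else 0).Finite := by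
    have := (push2_support_fin hE hm0 (k := k) (l := k) hk hk β).preimage
      ((sumEquiv Γ).symm.injective.injOn)
    refine this.subset ?_
    intro y hy
    simp only [Set.mem_preimage, mem_support] at hy ⊢
    rw [hcond y]
    exact hy
  rw [e1, finsum_curry _ f1]
  unfold push
  apply finsum_congr
  intro δ
  by_cases h : k • δ = β
  · simp only [h, if_true]
  · simp only [h, if_false]
    exact finsum_zero

lemma push2_src (hE : IsEff deg E) (hc : ∀ a, a ∉ E → c a = 0)
    (hp : ∀ a b, a ∉ E ∨ b ∉ E → p a b = 0) (hm : IsMeeting deg c p m) {k l : ℕ} (hk : 0 < k)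
    (hl : 0 < l) (β : Γ) :
    push2 k l (src p m) β = push2 k l p β + push (k + l) (fun a => m a a - p a a) β := by
  have hm0 := fun a b => meeting_zero hE hc hp hm a b
  let h : Γ → Γ → ℚ := fun a b => if a = b then m a a - p a a else 0
  have hh : ∀ a b, a ∉ E ∨ b ∉ E → h a b = 0 := by
    intro a b hab
    simp only [h]
    split_ifs with h'
    · subst h'
      rw [hm0 _ _ hab, hp _ _ hab]; simp
    · rfl
  have f1 := push2_support_fin hE hp hk hl β
  have f2 := push2_support_fin hE hh hk hl β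
  have e2 : push (k + l) (fun a => m a a - p a a) β =
      ∑ᶠ x : Γ × Γ, if k • x.1 + l • x.2 = β then h x.1 x.2 else 0 := by
    rw [finsum_curry _ f2]
    unfold push
    apply finsum_congr
    intro a
    rw [finsum_eq_single _ a]
    · simp only [h, if_true, add_nsmul]
    · intro b hb
      have h3 : h a b = 0 := if_neg (fun h' => hb h'.symm)
      simp only [h3, ite_self]
  rw [e2]
  unfold push2
  rw [← finsum_add_distrib f1 f2]
  apply finsum_congr
  intro x
  split_ifs with h1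
  · simp only [src, h]
    split_ifs with h2
    · rw [← h2]; ring
    · ring
  · simp

/-- **Closed form of the meeting numbers**: with `C α = n_{0,α}(c_2) - ∑_{β₁+β₂=α} m(β₁,β₂)`,
`∑_{kα=β} k C(α) = ∑_{kα=β} n_{0,α}(c_2) - ∑_{kα+lγ=β} ⟨α,γ⟩`. -/
theorem meeting_closed (hE : IsEff deg E) (hc : ∀ a, a ∉ E → c a = 0)
    (hp : ∀ a b, a ∉ E ∨ b ∉ E → p a b = 0) (hm : IsMeeting deg c p m) (β : Γ) :
    mcs (fun k => (k : ℚ)) (fun α => c α - ∑ᶠ a, m a (α - a)) β =
      mcs (fun _ => 1) c β - pairSum p β := by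
  have hm0 := fun a b => meeting_zero hE hc hp hm a b
  obtain ⟨D, hD⟩ : ∃ D : ℕ, deg β ≤ D := ⟨(deg β).toNat, Int.self_le_toNat _⟩
  set M : Γ → ℚ := fun δ => ∑ᶠ a, m a (δ - a) with hM
  have hM0 : ∀ δ, δ ∉ E → M δ = 0 := by
    intro δ hδ
    rw [hM]
    apply finsum_eq_zero_of_forall_eq_zero
    intro a
    by_contra hne
    apply hδ
    have h1 : a ∈ E := by
      by_contra h'; exact hne (hm0 _ _ (Or.inl h'))
    have h2 : δ - a ∈ E := by
      by_contra h'; exact hne (hm0 _ _ (Or.inr h'))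
    have := hE.add _ h1 _ h2
    simpa using this
  have hC0 : ∀ δ, δ ∉ E → c δ - M δ = 0 := by
    intro δ hδ; rw [hM0 δ hδ, hc δ hδ]; simp
  have hdiag : (fun a => m a a - p a a) = fun a => c a - M a := by
    funext a; rw [hm.diag a]; simp only [hM]; ring
  rw [mcs_eq hE _ hC0 hD, mcs_eq hE _ hc hD, pairSum_eq hE hp hD]
  -- telescoping
  have hX0 : ∀ k l, 0 < k → 0 < l → D < k + l → push2 k l m β = 0 := by
    intro k l hk hl hkl
    apply push2_zero_of_gt hE hm0 hk hl
    have : (D : ℤ) < k + l := by exact_mod_cast hkl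
    omega
  have t1 : ∑ k ∈ Icc 1 D, ∑ l ∈ Icc 1 D, push2 k l m β =
      ∑ k ∈ Icc 1 D, ∑ l ∈ Icc 1 D, push2 k l (src p m) β
      + ∑ k ∈ Icc 1 D, ∑ l ∈ Icc 1 D, push2 (k + l) l m β
      + ∑ k ∈ Icc 1 D, ∑ l ∈ Icc 1 D, push2 k (k + l) m β := by
    rw [← Finset.sum_add_distrib, ← Finset.sum_add_distrib]
    apply Finset.sum_congr rfl
    intro k hk
    rw [← Finset.sum_add_distrib, ← Finset.sum_add_distrib]
    apply Finset.sum_congr rfl
    intro l hl
    rw [mem_Icc] at hk hl
    exact push2_step hE hc hp hm hk.1 hl.1 β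
  have t2 : ∑ k ∈ Icc 1 D, ∑ l ∈ Icc 1 D, push2 (k + l) l m β =
      ∑ l ∈ Icc 1 D, ∑ k ∈ Icc 1 D, if l < k then push2 k l m β else 0 := by
    rw [Finset.sum_comm]
    apply Finset.sum_congr rfl
    intro l hl
    rw [mem_Icc] at hl
    refine sum_shift (fun k => push2 k l m β) ?_ l
    intro j hj
    exact hX0 j l (by omega) hl.1 (by omega)
  have t3 : ∑ k ∈ Icc 1 D, ∑ l ∈ Icc 1 D, push2 k (k + l) m β =
      ∑ k ∈ Icc 1 D, ∑ l ∈ Icc 1 D, if k < l then push2 k l m β else 0 := by
    apply Finset.sum_congr rfl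
    intro k hk
    rw [mem_Icc] at hk
    rw [← sum_shift (fun l => push2 k l m β) _ k]
    · apply Finset.sum_congr rfl
      intro l _
      rw [add_comm k l]
    · intro j hj
      exact hX0 k j hk.1 (by omega) (by omega)
  have t4 : ∑ k ∈ Icc 1 D, ∑ l ∈ Icc 1 D, push2 k l m β =
      ∑ l ∈ Icc 1 D, ∑ k ∈ Icc 1 D, (if l < k then push2 k l m β else 0)
      + ∑ k ∈ Icc 1 D, ∑ l ∈ Icc 1 D, (if k < l then push2 k l m β else 0)
      + ∑ k ∈ Icc 1 D, push2 k k m β := by
    rw [Finset.sum_comm (s := Icc 1 D) (t := Icc 1 D)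
      (f := fun l k => if l < k then push2 k l m β else 0)]
    rw [← Finset.sum_add_distrib, ← Finset.sum_add_distrib]
    apply Finset.sum_congr rfl
    intro k hk
    rw [← Finset.sum_add_distrib]
    have : push2 k k m β = ∑ l ∈ Icc 1 D, if l = k then push2 k l m β else 0 := by
      rw [Finset.sum_ite_eq' (Icc 1 D) k (fun l => push2 k l m β), if_pos hk]
    rw [this, ← Finset.sum_add_distrib]
    apply Finset.sum_congr rfl
    intro l _
    rcases lt_trichotomy l k with h | h | h
    · rw [if_pos h, if_neg (by omega), if_neg (by omega)]; ring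
    · subst h; simp
    · rw [if_neg (by omega), if_pos h, if_neg (by omega)]; ring
  have t5 : ∑ k ∈ Icc 1 D, push2 k k m β = ∑ k ∈ Icc 1 D, push k M β := by
    apply Finset.sum_congr rfl
    intro k hk
    rw [mem_Icc] at hk
    exact push2_diag hE hc hp hm hk.1 β
  have t6 : ∑ k ∈ Icc 1 D, ∑ l ∈ Icc 1 D, push2 k l (src p m) β =
      ∑ k ∈ Icc 1 D, ∑ l ∈ Icc 1 D, push2 k l p β
      + ∑ j ∈ Icc 1 D, ((j : ℚ) - 1) * push j (fun a => c a - M a) β := by
    rw [← sum_two_index (fun j => push j (fun a => c a - M a) β), ← Finset.sum_add_distrib]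
    · apply Finset.sum_congr rfl
      intro k hk
      rw [← Finset.sum_add_distrib]
      apply Finset.sum_congr rfl
      intro l hl
      rw [mem_Icc] at hk hl
      rw [push2_src hE hc hp hm hk.1 hl.1 β, hdiag]
    · intro j hj
      apply push_zero_of_gt hE hC0
      · have : (D : ℤ) < j := by exact_mod_cast hj
        omega
      · omega
  have t7 : ∀ k ∈ Icc 1 D, push k (fun a => c a - M a) β = push k c β - push k M β := by
    intro k hk
    rw [mem_Icc] at hk
    unfold push
    rw [← finsum_sub_distrib]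
    · apply finsum_congr
      intro a
      split_ifs <;> simp
    · exact fin_support_aux hE c hc (deg β) (fun α => k • α = β)
        (fun α hα h => (deg_le_of_nsmul hE hk.1 hα h).1)
    · exact fin_support_aux hE M hM0 (deg β) (fun α => k • α = β)
        (fun α hα h => (deg_le_of_nsmul hE hk.1 hα h).1)
  have t8 : ∑ k ∈ Icc 1 D, push k (fun a => c a - M a) β =
      ∑ k ∈ Icc 1 D, push k c β - ∑ k ∈ Icc 1 D, push k M β := by
    rw [← Finset.sum_sub_distrib]
    exact Finset.sum_congr rfl t7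
  have t9 : ∑ j ∈ Icc 1 D, ((j : ℚ) - 1) * push j (fun a => c a - M a) β =
      ∑ j ∈ Icc 1 D, (j : ℚ) * push j (fun a => c a - M a) β -
      ∑ j ∈ Icc 1 D, push j (fun a => c a - M a) β := by
    rw [← Finset.sum_sub_distrib]
    apply Finset.sum_congr rfl
    intro j _
    ring
  have t10 : ∑ k ∈ Icc 1 D, (1 : ℚ) * push k c β = ∑ k ∈ Icc 1 D, push k c β := by
    apply Finset.sum_congr rfl
    intro j _
    ring
  rw [t10]
  linarith

end meeting

end MPa4e0fb
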